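import Pool.Agent.H776.SFin

/-!
# The hyperplane conjecture for symmetric bodies is equivalent to its case of centred ellipsoids
intersected with cubes

Q1 holds for all symmetric convex domains if and only if it holds for the interiors of the bodies
`{x ∈ [-1, 1]ⁿ : xᵀ Q x ≤ 1}`, `Q` a positive definite matrix; and these two statements are equivalent to
the inequality of Kannan, Lovasz and Simonovits (for all measurable sets, halfspaces against sets) for
all symmetric convex bodies, and to its case of the bodies `{x ∈ [-1, 1]ⁿ : xᵀ Q x ≤ 1}`. All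
implications hold with absolute constants.

Method.
1. The perimeter is at most the Minkowski boundary measure (integration by parts against the
  cut-off functions of the set), and central sections have area at least `c |Ω| / √s`, `s` the largest
  variance. So Q1 for the bodies with ellipsoids gives `c / √s ≤ μ⁺(S)` for sets of measure
  one half, for these bodies (`SPer`, `SHm`).
2. The centred Gaussian measures on cubes are limits of marginals of these bodies, with densities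
  which are dominated by the limit. With a small ball in an independent two-dimensional factor as a
  corrector of the measure one gets `c / √s ≤ μ⁺(S) + o(1)` for the sets of measure almost one half
  for all centred Gaussian measures on cubes (`SNear`). The class is closed under products; the iterated
  unions and intersections of independent copies of a set of measure `p` have measures which are
  dense in `[0, 1]`, and derivative at most `1 / min(p, 1 - p)` in `p`. So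
  `(c / √s) min(p, 1 - p) ≤ μ⁺(S)` for all measurable sets (`SWord`).
3. From centred Gaussian measures on cubes to symmetric polytopes and symmetric bodies: limits of
  images under contractions such that the covariance in the lost directions tends to zero (`SPoly`).
4. From the Poincare inequality to the isoperimetric inequality (Ledoux) and back to Q1 (`SHyp`).
-/

set_option autoImplicit false

namespace Pool.Agent.Results.MP_dc1397_gt.EllipsoidsInCubes

open MeasureTheory Set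
open scoped ENNReal InnerProductSpace

/-- Euclidean space of dimension `n` -/
abbrev Euc (n : ℕ) : Type := EuclideanSpace ℝ (Fin n)

/-- open bounded convex set `Ω = -Ω ≠ ∅` -/
structure Domain {n : ℕ} (Ω : Set (Euc n)) : Prop where
  isOpen : IsOpen Ω
  convex : Convex ℝ Ω
  bdd : Bornology.IsBounded Ω
  symm : ∀ x ∈ Ω, -x ∈ Ω
  nonempty : Ω.Nonempty

/-- convex body `K = -K`: compact, convex, symmetric, with nonempty interior -/
structure SymmetricBody {n : ℕ} (K : Set (Euc n)) : Prop where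
  convex : Convex ℝ K
  compact : IsCompact K
  int : (interior K).Nonempty
  symm : ∀ x ∈ K, -x ∈ K

/-- the Lebesgue measure of a Euclidean space -/
noncomputable def lebesgue (F : Type) [NormedAddCommGroup F] [InnerProductSpace ℝ F]
    [FiniteDimensional ℝ F] [MeasurableSpace F] [BorelSpace F] : Measure F := volume

/-- the Lebesgue measure (of the Euclidean space `W`) of the section `Ω ∩ W` by a subspace `W` -/
noncomputable def areaIn {F : Type} [NormedAddCommGroup F] [InnerProductSpace ℝ F]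
    [FiniteDimensional ℝ F] [MeasurableSpace F] [BorelSpace F] (W : Submodule ℝ F) (Ω : Set F) :
    ℝ≥0∞ := lebesgue W {y : W | (y : F) ∈ Ω}

section defs

variable {κ : Type} [Fintype κ]

open Classical in
/-- divergence of a vector field on `ℝ^κ` -/
noncomputable def divergence (X : EuclideanSpace ℝ κ → EuclideanSpace ℝ κ)
    (x : EuclideanSpace ℝ κ) : ℝ :=
  ∑ i, fderiv ℝ X x (EuclideanSpace.single i 1) i

/-- `C¹` vector fields with compact support in `Ω` and `‖X‖ ≤ 1` -/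
structure Test (Ω : Set (EuclideanSpace ℝ κ)) (X : EuclideanSpace ℝ κ → EuclideanSpace ℝ κ) :
    Prop where
  diff : ContDiff ℝ 1 X
  comp : HasCompactSupport X
  sub : tsupport X ⊆ Ω
  le : ∀ x, ‖X x‖ ≤ 1

/-- the (De Giorgi) perimeter `P(E; Ω)` of `E` relative to the open set `Ω` -/
noncomputable def perimeter (E Ω : Set (EuclideanSpace ℝ κ)) : ℝ≥0∞ :=
  ⨆ (X : EuclideanSpace ℝ κ → EuclideanSpace ℝ κ) (_ : Test Ω X),
    ENNReal.ofReal (∫ x in E, divergence X x)

/-- the area (Lebesgue measure in the hyperplane `a^⊥`) of the central section of `Ω` by `a^⊥` -/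
noncomputable def sectionArea (Ω : Set (EuclideanSpace ℝ κ)) (a : EuclideanSpace ℝ κ) : ℝ≥0∞ :=
  areaIn (Submodule.span ℝ {a})ᗮ Ω

/-- the perimeter is the one used in the proof -/
theorem perimeter_eq (E Ω : Set (EuclideanSpace ℝ κ)) :
    Pool.Agent.W695.KH.per E Ω = perimeter E Ω := by
  unfold perimeter Pool.Agent.W695.KH.per
  refine iSup_congr fun X => ?_
  refine iSup_congr_Prop ⟨fun h => ⟨h.1, h.2.1, h.2.2.1, h.2.2.2⟩,
    fun h => ⟨h.diff, h.comp, h.sub, h.le⟩⟩ fun _ => rfl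

end defs

/-- **Q1 for the domain `Ω` with the constant `C`**: `inf_{a ≠ 0} H_{n-1}(Ω ∩ a^⊥) ≤ C P(E; Ω)` for all
measurable `E ⊆ Ω` with `|E| = |Ω| / 2` -/
def HyperplaneInequality {n : ℕ} (C : ℝ) (Ω : Set (Euc n)) : Prop :=
  ∀ E : Set (Euc n), MeasurableSet E → E ⊆ Ω → volume E = volume Ω / 2 →
    ⨅ (a : Euc n) (_ : a ≠ 0), sectionArea Ω a ≤ ENNReal.ofReal C * perimeter E Ω

/-- **the inequality of Kannan, Lovasz and Simonovits for `K` with the constant `c`**: for the uniform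
measure `μ` on `K` and `t ∈ [0, ∞]`, if `t min(μ H, 1 - μ H) ≤ μ⁺(H)` for all halfspaces `H` then
`c t min(μ A, 1 - μ A) ≤ μ⁺(A)` for all measurable sets `A`, with the Minkowski boundary
measure `μ⁺`. -/
def KLS {n : ℕ} (c : ℝ) (K : Set (Euc n)) : Prop :=
  ∀ μ : Measure (Euc n), μ = (volume K)⁻¹ • volume.restrict K → ∀ t : ℝ≥0∞,
    (∀ (u : Euc n) (b : ℝ), u ≠ 0 →
      t * min (μ {x : Euc n | inner ℝ u x ≤ b}) (1 - μ {x : Euc n | inner ℝ u x ≤ b}) ≤
        Filter.liminf (fun ε : ℝ => (μ (Metric.thickening ε {x : Euc n | inner ℝ u x ≤ b})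
          - μ {x : Euc n | inner ℝ u x ≤ b}) / ENNReal.ofReal ε) (nhdsWithin 0 (Set.Ioi 0))) →
    ∀ A : Set (Euc n), MeasurableSet A →
      ENNReal.ofReal c * t * min (μ A) (1 - μ A) ≤
        Filter.liminf (fun ε : ℝ => (μ (Metric.thickening ε A) - μ A) / ENNReal.ofReal ε)
          (nhdsWithin 0 (Set.Ioi 0))

/-- the part of the centred ellipsoid `xᵀ Q x ≤ 1` in the cube `[-1, 1]ⁿ` -/
def EllipsoidInCube {n : ℕ} (Q : Matrix (Fin n) (Fin n) ℝ) : Set (Euc n) :=
  {x | (∀ i, |x i| ≤ 1) ∧ ∑ i, ∑ j, Q i j * x i * x j ≤ 1}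

theorem kls_iff {n : ℕ} {c : ℝ} {K : Set (Euc n)} : KLS c K ↔ Pool.Agent.H776.HF K c :=
  ⟨fun h t ht A hA => h _ rfl t ht A hA, fun h μ hμ t ht A hA => by
    subst hμ
    exact h t ht A hA⟩

theorem hb_iff {n : ℕ} {C : ℝ} {Ω : Set (Euc n)} :
    HyperplaneInequality C Ω ↔ Pool.Agent.H776.HB C Ω :=
  ⟨fun h E h1 h2 h3 => by rw [perimeter_eq]; exact h E h1 h2 h3,
    fun h E h1 h2 h3 => by rw [← perimeter_eq]; exact h E h1 h2 h3⟩

theorem ec_eq {n : ℕ} {F : Type} [Fintype F] {A : Euc n →ₗ[ℝ] EuclideanSpace ℝ F}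
    {Q : Matrix (Fin n) (Fin n) ℝ} (h : ∀ x : Euc n, ‖A x‖ ^ 2 = ∑ i, ∑ j, Q i j * x i * x j) :
    Pool.Agent.H776.EC A = EllipsoidInCube Q := by
  ext x
  unfold Pool.Agent.H776.EC EllipsoidInCube
  rw [mem_ofPred_eq, mem_ofPred_eq, h]

theorem body_of_posDef {n : ℕ} {Q : Matrix (Fin n) (Fin n) ℝ} (hQ : Q.PosDef) :
    SymmetricBody (EllipsoidInCube Q) := by
  obtain ⟨A, hA, hx⟩ := Pool.Agent.H776.exists_map hQ
  rw [← ec_eq hx]
  refine ⟨Pool.Agent.H776.EC_convex A, Pool.Agent.H776.EC_compact A,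
    ⟨0, Pool.Agent.H776.EC_interior A⟩, ?_⟩
  rintro x ⟨h1, h2⟩
  refine ⟨fun i => ?_, ?_⟩
  · rw [PiLp.neg_apply, abs_neg]
    exact h1 i
  · rw [map_neg, norm_neg]
    exact h2

theorem zero_mem {n : ℕ} {Ω : Set (Euc n)} (h : Domain Ω) : (0 : Euc n) ∈ Ω := by
  obtain ⟨x, hx⟩ := h.nonempty
  have h1 := h.convex hx (h.symm x hx) (by norm_num : (0 : ℝ) ≤ 1 / 2)
    (by norm_num : (0 : ℝ) ≤ 1 / 2) (by norm_num)
  rwa [smul_neg, add_neg_cancel] at h1

theorem domain_interior {n : ℕ} {K : Set (Euc n)} (h : SymmetricBody K) : Domain (interior K) := by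
  refine ⟨isOpen_interior, h.convex.interior, h.compact.isBounded.subset interior_subset, ?_, h.int⟩
  intro x hx
  have hop : IsOpen ((fun y => -y) ⁻¹' interior K) := isOpen_interior.preimage continuous_neg
  have hsub : (fun y => -y) ⁻¹' interior K ⊆ K := by
    intro y hy
    have := h.symm _ (interior_subset hy)
    rwa [neg_neg] at this
  exact interior_maximal hsub hop (by simpa using hx)

theorem body_closure {n : ℕ} {Ω : Set (Euc n)} (h : Domain Ω) : SymmetricBody (closure Ω) := by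
  have hb := Pool.Agent.H776.body_closure h.isOpen h.convex h.bdd (zero_mem h)
  refine ⟨hb.cvx, hb.cpt, hb.int, fun x hx => ?_⟩
  have h1 : closure Ω ⊆ (fun y : Euc n => -y) ⁻¹' closure Ω := by
    refine closure_minimal (fun y hy => subset_closure (h.symm y hy)) ?_
    exact isClosed_closure.preimage continuous_neg
  exact h1 hx

/-- from the Poincare form for all symmetric bodies -/
theorem of_kp : ∃ c₁ c₂ : ℝ, 0 < c₁ ∧ 0 < c₂ ∧ ∀ D : ℝ, 0 < D →
    (∀ (n : ℕ) (K : Set (Euc n)), SymmetricBody K →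
      Pool.Agent.H776.KP (Pool.Agent.H776.nm (K.indicator fun _ => (1 : ℝ))) D) →
    (∀ (n : ℕ), 1 ≤ n → ∀ Ω : Set (Euc n), Domain Ω →
      HyperplaneInequality (c₁ * Real.sqrt D) Ω) ∧
    ∀ (n : ℕ) (K : Set (Euc n)), SymmetricBody K → KLS (c₂ / Real.sqrt D) K := by
  obtain ⟨C₁, hC₁, H⟩ := Pool.Agent.H776.hb_of_kp
  refine ⟨C₁, 1 / 40, hC₁, by norm_num, fun D hD h => ⟨fun n hn Ω hΩ => ?_, fun n K hK => ?_⟩⟩
  · have hne : Nonempty (Fin n) := ⟨⟨0, hn⟩⟩
    exact hb_iff.2 (H (Fin n) Ω hΩ.isOpen hΩ.convex hΩ.bdd (zero_mem hΩ) hΩ.symm D hD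
      (h n _ (body_closure hΩ)))
  · have h1 := Pool.Agent.H776.hf_of_kp ⟨hK.compact, hK.convex, hK.int⟩ hD (h n K hK)
    rw [div_div]
    exact kls_iff.2 h1

/-- from Q1 for ellipsoids in cubes -/
theorem kp_of_hyp {C : ℝ} (hC : 0 < C)
    (H : ∀ (n : ℕ), 1 ≤ n → ∀ Q : Matrix (Fin n) (Fin n) ℝ, Q.PosDef →
      HyperplaneInequality C (interior (EllipsoidInCube Q))) (n : ℕ) (K : Set (Euc n))
    (hK : SymmetricBody K) :
    Pool.Agent.H776.KP (Pool.Agent.H776.nm (K.indicator fun _ => (1 : ℝ))) (128 * C ^ 2) := by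
  refine Pool.Agent.H776.kp_of_hb hC (fun m hm F' _ A hA => ?_) ⟨hK.compact, hK.convex, hK.int⟩
    hK.symm
  obtain ⟨Q, hQ, -, hQx⟩ := Pool.Agent.H776.exists_matrix A hA
  rw [ec_eq hQx]
  exact hb_iff.1 (H m hm Q hQ)

theorem exists_kp_of_kls : ∃ c₀ : ℝ, 0 < c₀ ∧ ∀ C : ℝ, 0 < C →
    (∀ (n : ℕ) (Q : Matrix (Fin n) (Fin n) ℝ), Q.PosDef → KLS C (EllipsoidInCube Q)) →
    ∀ (n : ℕ) (K : Set (Euc n)), SymmetricBody K →
      Pool.Agent.H776.KP (Pool.Agent.H776.nm (K.indicator fun _ => (1 : ℝ)))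
        (4 / (C * c₀) ^ 2) := by
  classical
  obtain ⟨c₀, hc₀, H0⟩ := Pool.Agent.H776.exists_kp_of_hf
  refine ⟨c₀, hc₀, fun C hC H n K hK => ?_⟩
  have hD : 0 < 4 / (C * c₀) ^ 2 := by positivity
  refine Pool.Agent.H776.kp_of_ec ⟨hK.compact, hK.convex, hK.int⟩ hK.symm hD.le
    fun κ' F' _ _ A hA => ?_
  have e := Fintype.equivFin κ'
  set σ := Pool.Agent.H776.rx e.symm with hσ
  set A' : Pool.Agent.H776.Eu (Fin (Fintype.card κ')) →ₗ[ℝ] Pool.Agent.H776.Eu F' :=
    A ∘ₗ σ.toLinearEquiv.toLinearMap with hA'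
  have hA'i : Function.Injective A' := hA.comp σ.injective
  have hbody : Pool.Agent.H776.Body (Pool.Agent.H776.EC A') :=
    ⟨Pool.Agent.H776.EC_compact A', Pool.Agent.H776.EC_convex A',
      ⟨0, Pool.Agent.H776.EC_interior A'⟩⟩
  obtain ⟨Q, hQ, -, hQx⟩ := Pool.Agent.H776.exists_matrix A' hA'i
  have h1 := kls_iff.1 (H _ Q hQ)
  rw [← ec_eq hQx] at h1
  have h2 := H0 _ _ hbody C hC h1
  have hpr := hbody.wt.prob
  have h3 := h2.iso hbody.wt.int_sq σ hD.le
  have e1 : (Pool.Agent.H776.EC A').indicator (fun _ => (1 : ℝ)) =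
      fun y => Pool.Agent.H776.ecb A (σ y) := by
    funext y
    unfold Pool.Agent.H776.ecb
    have hiff : y ∈ Pool.Agent.H776.EC A' ↔ σ y ∈ Pool.Agent.H776.EC A := by
      unfold Pool.Agent.H776.EC
      rw [mem_ofPred_eq, mem_ofPred_eq]
      have : (∀ i, |σ y i| ≤ 1) ↔ ∀ i, |y i| ≤ 1 := by
        rw [hσ]
        simp only [Pool.Agent.H776.rx_apply, Equiv.symm_symm]
        exact ⟨fun h i => by simpa using h (e.symm i), fun h i => h _⟩
      rw [this]
      rfl
    by_cases hy : y ∈ Pool.Agent.H776.EC A'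
    · rw [indicator_of_mem hy, indicator_of_mem (hiff.1 hy)]
    · rw [indicator_of_notMem hy, indicator_of_notMem fun h => hy (hiff.2 h)]
  rw [e1, Pool.Agent.H776.nm_iso] at h3
  exact h3

/-- **main theorem**, with constants -/
theorem main : ∃ c₁ c₂ c₃ c₄ : ℝ, 0 < c₁ ∧ 0 < c₂ ∧ 0 < c₃ ∧ 0 < c₄ ∧ ∀ C : ℝ, 0 < C →
    ((∀ (n : ℕ), 1 ≤ n → ∀ Q : Matrix (Fin n) (Fin n) ℝ, Q.PosDef →
        HyperplaneInequality C (interior (EllipsoidInCube Q))) →
      (∀ (n : ℕ), 1 ≤ n → ∀ Ω : Set (Euc n), Domain Ω → HyperplaneInequality (c₁ * C) Ω) ∧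
      ∀ (n : ℕ) (K : Set (Euc n)), SymmetricBody K → KLS (c₂ / C) K) ∧
    ((∀ (n : ℕ) (Q : Matrix (Fin n) (Fin n) ℝ), Q.PosDef → KLS C (EllipsoidInCube Q)) →
      (∀ (n : ℕ), 1 ≤ n → ∀ Ω : Set (Euc n), Domain Ω → HyperplaneInequality (c₃ / C) Ω) ∧
      ∀ (n : ℕ) (K : Set (Euc n)), SymmetricBody K → KLS (c₄ * C) K) := by
  obtain ⟨a, b, ha, hb, H⟩ := of_kp
  obtain ⟨c₀, hc₀, H0⟩ := exists_kp_of_kls
  have h128 : 0 < Real.sqrt 128 := Real.sqrt_pos.2 (by norm_num)
  refine ⟨a * Real.sqrt 128, b / Real.sqrt 128, a * (2 / c₀), b * (c₀ / 2), by positivity,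
    by positivity, by positivity, by positivity, fun C hC => ⟨fun h => ?_, fun h => ?_⟩⟩
  · obtain ⟨h1, h2⟩ := H (128 * C ^ 2) (by positivity) (kp_of_hyp hC h)
    have e : Real.sqrt (128 * C ^ 2) = Real.sqrt 128 * C := by
      rw [Real.sqrt_mul (by norm_num), Real.sqrt_sq hC.le]
    rw [e] at h1 h2
    refine ⟨fun n hn Ω hΩ => ?_, fun n K hK => ?_⟩
    · have := h1 n hn Ω hΩ
      rwa [← mul_assoc] at this
    · have := h2 n K hK
      rwa [← div_div] at this
  · obtain ⟨h1, h2⟩ := H (4 / (C * c₀) ^ 2) (by positivity) (H0 C hC h)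
    have e : Real.sqrt (4 / (C * c₀) ^ 2) = 2 / (C * c₀) := by
      rw [Real.sqrt_div (by norm_num), Real.sqrt_sq (by positivity),
        show (4 : ℝ) = 2 ^ 2 by norm_num, Real.sqrt_sq (by norm_num)]
    rw [e] at h1 h2
    refine ⟨fun n hn Ω hΩ => ?_, fun n K hK => ?_⟩
    · have h3 := h1 n hn Ω hΩ
      have e2 : a * (2 / (C * c₀)) = a * (2 / c₀) / C := by field_simp
      rwa [e2] at h3
    · have h3 := h2 n K hK
      have e2 : b / (2 / (C * c₀)) = b * (c₀ / 2) * C := by field_simp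
      rwa [e2] at h3

/-- **The hyperplane conjecture (Q1) is equivalent to its case of centred ellipsoids intersected with
cubes, and to the conjecture of Kannan, Lovasz and Simonovits for symmetric convex bodies.**
(1) With absolute constants `c₁, …, c₄ > 0`: if Q1 holds with the constant `C` for the interiors of all
bodies `{x ∈ [-1, 1]ⁿ : xᵀ Q x ≤ 1}`, `Q` positive definite, `n ≥ 1`, then it holds with the constant
`c₁ C` for all symmetric domains, and the inequality of Kannan, Lovasz and Simonovits holds with the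
constant `c₂ / C` for all symmetric bodies and all measurable sets. If the latter inequality holds with
the constant `C` for the bodies `{x ∈ [-1, 1]ⁿ : xᵀ Q x ≤ 1}` then Q1 holds with the constant `c₃ / C`
for all symmetric domains and the inequality of Kannan, Lovasz and Simonovits with the constant `c₄ C`
for all symmetric bodies.
(2)-(4) So the four conjectures are equivalent.
(5) The bodies `{x ∈ [-1, 1]ⁿ : xᵀ Q x ≤ 1}` are symmetric bodies, and the interior of a symmetric body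
is a symmetric domain. -/
theorem result :
    (∃ c₁ c₂ c₃ c₄ : ℝ, 0 < c₁ ∧ 0 < c₂ ∧ 0 < c₃ ∧ 0 < c₄ ∧ ∀ C : ℝ, 0 < C →
      ((∀ (n : ℕ), 1 ≤ n → ∀ Q : Matrix (Fin n) (Fin n) ℝ, Q.PosDef →
          HyperplaneInequality C (interior (EllipsoidInCube Q))) →
        (∀ (n : ℕ), 1 ≤ n → ∀ Ω : Set (Euc n), Domain Ω → HyperplaneInequality (c₁ * C) Ω) ∧
        ∀ (n : ℕ) (K : Set (Euc n)), SymmetricBody K → KLS (c₂ / C) K) ∧
      ((∀ (n : ℕ) (Q : Matrix (Fin n) (Fin n) ℝ), Q.PosDef → KLS C (EllipsoidInCube Q)) →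
        (∀ (n : ℕ), 1 ≤ n → ∀ Ω : Set (Euc n), Domain Ω → HyperplaneInequality (c₃ / C) Ω) ∧
        ∀ (n : ℕ) (K : Set (Euc n)), SymmetricBody K → KLS (c₄ * C) K)) ∧
    ((∃ C : ℝ, 0 < C ∧ ∀ (n : ℕ), 1 ≤ n → ∀ Ω : Set (Euc n), Domain Ω →
        HyperplaneInequality C Ω) ↔
      ∃ C : ℝ, 0 < C ∧ ∀ (n : ℕ), 1 ≤ n → ∀ Q : Matrix (Fin n) (Fin n) ℝ, Q.PosDef →
        HyperplaneInequality C (interior (EllipsoidInCube Q))) ∧
    ((∃ C : ℝ, 0 < C ∧ ∀ (n : ℕ), 1 ≤ n → ∀ Ω : Set (Euc n), Domain Ω →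
        HyperplaneInequality C Ω) ↔
      ∃ C : ℝ, 0 < C ∧ ∀ (n : ℕ) (K : Set (Euc n)), SymmetricBody K → KLS C K) ∧
    ((∃ C : ℝ, 0 < C ∧ ∀ (n : ℕ) (K : Set (Euc n)), SymmetricBody K → KLS C K) ↔
      ∃ C : ℝ, 0 < C ∧ ∀ (n : ℕ) (Q : Matrix (Fin n) (Fin n) ℝ), Q.PosDef →
        KLS C (EllipsoidInCube Q)) ∧
    (∀ (n : ℕ) (Q : Matrix (Fin n) (Fin n) ℝ), Q.PosDef → SymmetricBody (EllipsoidInCube Q)) ∧
    ∀ (n : ℕ) (K : Set (Euc n)), SymmetricBody K → Domain (interior K) := by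
  obtain ⟨c₁, c₂, c₃, c₄, h1, h2, h3, h4, H⟩ := main
  have hcap : ∀ C : ℝ, (∀ (n : ℕ), 1 ≤ n → ∀ Ω : Set (Euc n), Domain Ω →
      HyperplaneInequality C Ω) → ∀ (n : ℕ), 1 ≤ n → ∀ Q : Matrix (Fin n) (Fin n) ℝ, Q.PosDef →
      HyperplaneInequality C (interior (EllipsoidInCube Q)) := fun C h n hn Q hQ =>
    h n hn _ (domain_interior (body_of_posDef hQ))
  refine ⟨⟨c₁, c₂, c₃, c₄, h1, h2, h3, h4, H⟩, ⟨?_, ?_⟩, ⟨?_, ?_⟩, ⟨?_, ?_⟩,
    fun n Q hQ => body_of_posDef hQ, fun n K hK => domain_interior hK⟩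
  · rintro ⟨C, hC, h⟩
    exact ⟨C, hC, hcap C h⟩
  · rintro ⟨C, hC, h⟩
    exact ⟨c₁ * C, by positivity, ((H C hC).1 h).1⟩
  · rintro ⟨C, hC, h⟩
    exact ⟨c₂ / C, by positivity, ((H C hC).1 (hcap C h)).2⟩
  · rintro ⟨C, hC, h⟩
    exact ⟨c₃ / C, by positivity, ((H C hC).2 fun n Q hQ => h n _ (body_of_posDef hQ)).1⟩
  · rintro ⟨C, hC, h⟩
    exact ⟨C, hC, fun n Q hQ => h n _ (body_of_posDef hQ)⟩
  · rintro ⟨C, hC, h⟩
    exact ⟨c₄ * C, by positivity, ((H C hC).2 h).2⟩

end Pool.Agent.Results.MP_dc1397_gt.EllipsoidsInCubes
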