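import Pool.Agent.H776.ND6
import Pool.Agent.H776.ND9

/-!
# The hyperplane conjecture for bodies defined by few ellipsoids

In all dimensions, for the intersection of `k` arbitrary centred (possibly degenerate) ellipsoids, Q1
holds with a constant which depends on `k` only (`C k^{5/2}`), together with the corresponding KLS
inequality. More generally this holds for all bodies `{x : (q_1(x), …, q_k(x)) ∈ D}`, where the `q_j` are
arbitrary positive semidefinite quadratic forms and `D` is a convex lower set; the forms may be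
replaced by `ψ_j(P_j x)`, `P_j` an arbitrary linear map, `ψ_j` an even function with `2 ≤ D² ψ_j ≤ 2κ`.
Finally, with the constant `C κ k^{5/2} (k + d)^{1/2}`, Q1 holds for all symmetric domains
`{x : (F_1(x), …, F_k(x), ⟪a_1, x⟫, …, ⟪a_d, x⟫) ∈ D}`, `F_j(x) = ψ_j(P_j x) + ⟪b_j, x⟫`, with functions
`ψ_j` which need not be even; for instance for the intersections of `k` ellipsoids and `d` slabs, and
for `K ∩ (-K)` if `K` is the intersection of `k` ellipsoids with arbitrary centres. The number of slabs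
has to be bounded here, unless the conjecture is true: Q1 with an absolute constant for the
intersections of ellipsoids and `d(n)` slabs, where `d(n) → ∞`, however slowly, would imply Q1 for all
symmetric domains.

Method (`F_j = ψ_j ∘ P_j`, `K = {F ∈ D}`, `N(t) = |{x : F(x) + t ∈ D}|`).
1. By Brunn-Minkowski `log N` is concave, so `N(t) ≤ N(0) exp(-⟨λ, t⟩)` for some `λ ≥ 0` (`GE1`). Let
   `W(s) = sup {exp(⟨λ, r⟩ / (2k)) : r ≥ 0, s + r ∈ D}`, `≥ 1` on `D`. Then `W ∘ F` is strongly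
   log-concave with respect to `Σ λ_j q_j / k` on `K`, with integral at most `5 |K|` (`GE2`, `GE3`), and the
   Brascamp-Lieb inequality applies.
2. This is sharp up to the factor `C κ² k⁵`: if `Σ λ_j q_j(v) ≤ c / (κ² k⁴)` then the functions
   `F_j(x + v) - F_j(x - v)` have small second moments by step 1, so half of `K`, translated by `v`, is
   contained in `K' = {F - δ ∈ D}`, `δ_j = 1 / (k λ_j)`, whose volume is at most `e |K|`. So the variances
   of the linear functionals are bounded below (`GE4`).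
3. E. Milman's theorem gives the Poincare inequality (`GE5`), affine invariance (`GE7`). Ledoux' theorem,
   sections (`FE5`).
4. Linear functionals and functions which are not even (`ND1`-`ND6`): step 2 for the vectors `v` which are
   orthogonal, in isotropic position, to the `a_i` and to the means of the gradients of the `F_j`; an
   additional Gaussian factor in the remaining `k + d` directions, and a form of E. Milman's theorem in
   which only one level of Lipschitz functions is used (`NC1`).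
5. Gaussian measures on cubes of dimension `m` (which suffice for all symmetric bodies, `SFin`) are limits
   of marginals of the uniform measures on the intersections of ellipsoids of dimension `n → ∞` with
   `d(n) ≥ m` slabs, in which the slabs in the additional directions are not active (`ND9`).
-/

set_option autoImplicit false

namespace Pool.Agent.Results.MP_dc1397_gt.FewEllipsoids

open MeasureTheory Set
open scoped ENNReal InnerProductSpace

/-- Euclidean space of dimension `n` -/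
abbrev Euc (n : ℕ) : Type := EuclideanSpace ℝ (Fin n)

/-- open bounded convex set `Ω = -Ω ≠ ∅` -/
structure Domain {n : ℕ} (Ω : Set (Euc n)) : Prop where
  isOpen : IsOpen Ω
  convex : Convex ℝ Ω
  bdd : Bornology.IsBounded Ω
  symm : ∀ x ∈ Ω, -x ∈ Ω
  nonempty : Ω.Nonempty

/-- the Lebesgue measure of a Euclidean space -/
noncomputable def lebesgue (F : Type) [NormedAddCommGroup F] [InnerProductSpace ℝ F]
    [FiniteDimensional ℝ F] [MeasurableSpace F] [BorelSpace F] : Measure F := volume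

/-- the Lebesgue measure (of the Euclidean space `W`) of the section `Ω ∩ W` by a subspace `W` -/
noncomputable def areaIn {F : Type} [NormedAddCommGroup F] [InnerProductSpace ℝ F]
    [FiniteDimensional ℝ F] [MeasurableSpace F] [BorelSpace F] (W : Submodule ℝ F) (Ω : Set F) :
    ℝ≥0∞ := lebesgue W {y : W | (y : F) ∈ Ω}

section defs

variable {κ : Type} [Fintype κ]

open Classical in
/-- divergence of a vector field on `ℝ^κ` -/
noncomputable def divergence (X : EuclideanSpace ℝ κ → EuclideanSpace ℝ κ)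
    (x : EuclideanSpace ℝ κ) : ℝ :=
  ∑ i, fderiv ℝ X x (EuclideanSpace.single i 1) i

/-- `C¹` vector fields with compact support in `Ω` and `‖X‖ ≤ 1` -/
structure Test (Ω : Set (EuclideanSpace ℝ κ)) (X : EuclideanSpace ℝ κ → EuclideanSpace ℝ κ) :
    Prop where
  diff : ContDiff ℝ 1 X
  comp : HasCompactSupport X
  sub : tsupport X ⊆ Ω
  le : ∀ x, ‖X x‖ ≤ 1

/-- the (De Giorgi) perimeter `P(E; Ω)` of `E` relative to the open set `Ω` -/
noncomputable def perimeter (E Ω : Set (EuclideanSpace ℝ κ)) : ℝ≥0∞ :=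
  ⨆ (X : EuclideanSpace ℝ κ → EuclideanSpace ℝ κ) (_ : Test Ω X),
    ENNReal.ofReal (∫ x in E, divergence X x)

/-- the area (Lebesgue measure in the hyperplane `a^⊥`) of the central section of `Ω` by `a^⊥` -/
noncomputable def sectionArea (Ω : Set (EuclideanSpace ℝ κ)) (a : EuclideanSpace ℝ κ) : ℝ≥0∞ :=
  areaIn (Submodule.span ℝ {a})ᗮ Ω

/-- the perimeter is the one used in the proof -/
theorem perimeter_eq (E Ω : Set (EuclideanSpace ℝ κ)) :
    Pool.Agent.W695.KH.per E Ω = perimeter E Ω := by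
  unfold perimeter Pool.Agent.W695.KH.per
  refine iSup_congr fun X => ?_
  refine iSup_congr_Prop ⟨fun h => ⟨h.1, h.2.1, h.2.2.1, h.2.2.2⟩,
    fun h => ⟨h.diff, h.comp, h.sub, h.le⟩⟩ fun _ => rfl

end defs

/-- **Q1 for the domain `Ω` with the constant `C`**: `inf_{a ≠ 0} H_{n-1}(Ω ∩ a^⊥) ≤ C P(E; Ω)` for all
measurable `E ⊆ Ω` with `|E| = |Ω| / 2` -/
def HyperplaneInequality {n : ℕ} (C : ℝ) (Ω : Set (Euc n)) : Prop :=
  ∀ E : Set (Euc n), MeasurableSet E → E ⊆ Ω → volume E = volume Ω / 2 →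
    ⨅ (a : Euc n) (_ : a ≠ 0), sectionArea Ω a ≤ ENNReal.ofReal C * perimeter E Ω

/-- the Cheeger constant of `Ω`: the infimum of `P(E; Ω) / min(|E|, |Ω \ E|)` over all measurable
`E ⊆ Ω` with `|E|, |Ω \ E| > 0` -/
noncomputable def cheeger {n : ℕ} (Ω : Set (Euc n)) : ℝ≥0∞ :=
  ⨅ (E : Set (Euc n)) (_ : MeasurableSet E ∧ E ⊆ Ω ∧ 0 < volume E ∧ 0 < volume (Ω \ E)),
    perimeter E Ω / min (volume E) (volume (Ω \ E))

/-- the infimum over the cuts by central hyperplanes, `inf_{a ≠ 0} H_{n-1}(Ω ∩ a^⊥) / (|Ω| / 2)` -/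
noncomputable def hyperplaneCheeger {n : ℕ} (Ω : Set (Euc n)) : ℝ≥0∞ :=
  ⨅ (a : Euc n) (_ : a ≠ 0), sectionArea Ω a / (volume Ω / 2)

/-- `ψ` is even, `C¹`, `ψ(0) = 0`, `ψ - ‖·‖²` is convex and `∇ψ` is `2κ`-Lipschitz (for `C²` functions:
`2 ≤ D² ψ ≤ 2κ`) -/
structure Profile {m : ℕ} (κ : ℝ) (ψ : Euc m → ℝ) : Prop where
  even : ∀ y, ψ (-y) = ψ y
  zero : ψ 0 = 0
  diff : ContDiff ℝ 1 ψ
  convex : ConvexOn ℝ univ fun y => ψ y - ‖y‖ ^ 2
  lipschitz : ∀ y z, ‖fderiv ℝ ψ y - fderiv ℝ ψ z‖ ≤ 2 * κ * ‖y - z‖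

/-- `ψ` is `C¹`, `ψ - ‖·‖²` is convex and `∇ψ` is `2κ`-Lipschitz (for `C²` functions:
`2 ≤ D² ψ ≤ 2κ`); no symmetry -/
structure UCS {m : ℕ} (κ : ℝ) (ψ : Euc m → ℝ) : Prop where
  diff : ContDiff ℝ 1 ψ
  convex : ConvexOn ℝ univ fun y => ψ y - ‖y‖ ^ 2
  lipschitz : ∀ y z, ‖fderiv ℝ ψ y - fderiv ℝ ψ z‖ ≤ 2 * κ * ‖y - z‖

/-- `D ⊆ ℝᵏ × ℝᵈ` is open, convex, and lower in the first `k` coordinates -/
structure MixedLevels {k d : ℕ} (D : Set ((Fin k → ℝ) × (Fin d → ℝ))) : Prop where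
  isOpen : IsOpen D
  convex : Convex ℝ D
  lower : ∀ (s t : Fin k → ℝ) (z : Fin d → ℝ), (s, z) ∈ D → (∀ j, t j ≤ s j) → (t, z) ∈ D

/-- `D` is an open convex lower set in `ℝᵏ` which contains the origin -/
structure Levels {k : ℕ} (D : Set (Fin k → ℝ)) : Prop where
  isOpen : IsOpen D
  convex : Convex ℝ D
  lower : ∀ s ∈ D, ∀ t : Fin k → ℝ, (∀ j, t j ≤ s j) → t ∈ D
  zero : (0 : Fin k → ℝ) ∈ D

/-- the set `{x ∈ ℝⁿ : (ψ_1(P_1 x), …, ψ_k(P_k x)) ∈ D}` -/
def DefinedBy {n k : ℕ} {m : Fin k → ℕ} (P : ∀ j, Euc n →L[ℝ] Euc (m j))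
    (ψ : ∀ j, Euc (m j) → ℝ) (D : Set (Fin k → ℝ)) : Set (Euc n) :=
  {x | (fun j => ψ j (P j x)) ∈ D}

/-- the set `{x ∈ ℝⁿ : (F_1(x), …, F_k(x), ⟪a_1, x⟫, …, ⟪a_d, x⟫) ∈ D}`,
`F_j(x) = ψ_j(P_j x) + ⟪b_j, x⟫` -/
def MixedBy {n k d : ℕ} {m : Fin k → ℕ} (P : ∀ j, Euc n →L[ℝ] Euc (m j))
    (ψ : ∀ j, Euc (m j) → ℝ) (b : Fin k → Euc n) (a : Fin d → Euc n)
    (D : Set ((Fin k → ℝ) × (Fin d → ℝ))) : Set (Euc n) :=
  {x | ((fun j => ψ j (P j x) + inner ℝ (b j) x), fun i => inner ℝ (a i) x) ∈ D}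

/-- the values `(xᵀ Q_1 x, …, xᵀ Q_k x)` of the quadratic forms -/
def forms {n k : ℕ} (Q : Fin k → Matrix (Fin n) (Fin n) ℝ) (x : Euc n) (l : Fin k) : ℝ :=
  ∑ i, ∑ j, Q l i j * x i * x j

/-- the part of the open ellipsoid `xᵀ Q x < 1` in the slabs `|x_i| < 1`, `i ≤ d` -/
def InSlabs {n : ℕ} (d : ℕ) (Q : Matrix (Fin n) (Fin n) ℝ) : Set (Euc n) :=
  {x | (∀ i : Fin n, (i : ℕ) < d → |x i| < 1) ∧ ∑ i, ∑ j, Q i j * x i * x j < 1}

/-- the mean value over `Ω` -/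
noncomputable def mean {n : ℕ} (Ω : Set (Euc n)) (f : Euc n → ℝ) : ℝ :=
  (∫ x in Ω, f x) / (volume Ω).toReal

/-- `Var_Ω f ≤ D E_x ‖∇ f(x)‖²` for all `C¹` functions -/
def Poincare {n : ℕ} (D : ℝ) (Ω : Set (Euc n)) : Prop := ∀ f : Euc n → ℝ, ContDiff ℝ 1 f →
  mean Ω (fun x => (f x - mean Ω f) ^ 2) ≤ D * mean Ω fun x => ‖fderiv ℝ f x‖ ^ 2

/-- `Var_Ω f ≤ D E_x E_y (∂_y f(x))²` for all `C¹` functions, where `x`, `y` are independent and uniform
in `Ω`, that is, `Var_Ω f ≤ D E ⟨Cov ∇f, ∇f⟩` -/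
def AffinePoincare {n : ℕ} (D : ℝ) (Ω : Set (Euc n)) : Prop := ∀ f : Euc n → ℝ, ContDiff ℝ 1 f →
  mean Ω (fun x => (f x - mean Ω f) ^ 2) ≤ D * mean Ω fun x => mean Ω fun y => (fderiv ℝ f x y) ^ 2

/-- the inequality of the hyperplane conjecture for `Ω`, with the constant `C`, in all its forms: for the
cuts into halves (Q1), for all cuts (Cheeger constants), for functions (KLS; `s` is a bound of the
covariance matrix), and the affine invariant form -/
structure Inequalities {n : ℕ} (C : ℝ) (Ω : Set (Euc n)) : Prop where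
  halves : HyperplaneInequality C Ω
  cuts : hyperplaneCheeger Ω ≤ ENNReal.ofReal C * cheeger Ω
  functions : ∀ s : ℝ, (∀ θ : Euc n, ‖θ‖ = 1 → mean Ω (fun x => ⟪x, θ⟫_ℝ ^ 2) ≤ s) →
    Poincare (C ^ 2 * s) Ω
  affine : AffinePoincare (C ^ 2) Ω

theorem hb_iff {n : ℕ} {C : ℝ} {Ω : Set (Euc n)} :
    HyperplaneInequality C Ω ↔ Pool.Agent.H776.HB C Ω :=
  ⟨fun h E h1 h2 h3 => by rw [perimeter_eq]; exact h E h1 h2 h3,
    fun h E h1 h2 h3 => by rw [← perimeter_eq]; exact h E h1 h2 h3⟩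

theorem zero_mem {n : ℕ} {Ω : Set (Euc n)} (h : Domain Ω) : (0 : Euc n) ∈ Ω := by
  obtain ⟨x, hx⟩ := h.nonempty
  have h1 := h.convex hx (h.symm x hx) (by norm_num : (0 : ℝ) ≤ 1 / 2)
    (by norm_num : (0 : ℝ) ≤ 1 / 2) (by norm_num)
  rwa [smul_neg, add_neg_cancel] at h1

/-- the variance -/
theorem var_form {n : ℕ} {Ω : Set (Euc n)} (hΩ : Domain Ω) {f : Euc n → ℝ}
    (hf : ContDiff ℝ 1 f) : mean Ω (fun x => (f x - mean Ω f) ^ 2) = Pool.Agent.W695.KH.VV Ω f := by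
  have hΩt : volume Ω ≠ ⊤ := hΩ.bdd.measure_lt_top.ne
  have hV : 0 < (volume Ω).toReal :=
    ENNReal.toReal_pos (hΩ.isOpen.measure_pos volume hΩ.nonempty).ne' hΩt
  have hcpt : IsCompact (closure Ω) := hΩ.bdd.isCompact_closure
  have h1 : IntegrableOn (fun x => f x ^ 2) Ω := (((hf.continuous.pow 2).continuousOn
    (s := closure Ω)).integrableOn_compact hcpt).mono_set subset_closure
  have h2 : IntegrableOn f Ω := ((hf.continuous.continuousOn
    (s := closure Ω)).integrableOn_compact hcpt).mono_set subset_closure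
  obtain ⟨c, hc⟩ : ∃ c, c = mean Ω f := ⟨_, rfl⟩
  have h3 : IntegrableOn (fun _ : Euc n => c ^ 2) Ω := integrableOn_const hΩt
  have e : ∀ x, (f x - c) ^ 2 = (f x ^ 2 - 2 * c * f x) + c ^ 2 := fun x => by ring
  have h4 : IntegrableOn (fun x => f x ^ 2 - 2 * c * f x) Ω := h1.sub (h2.const_mul _)
  rw [← hc]
  unfold mean Pool.Agent.W695.KH.VV Pool.Agent.W695.KH.EV
  simp only [e]
  rw [integral_add h4 h3, integral_sub h1 (h2.const_mul (2 * c)),
    integral_const_mul, setIntegral_const, smul_eq_mul, measureReal_def]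
  have hc' : (∫ x in Ω, f x) = c * (volume Ω).toReal := by
    rw [hc]
    unfold mean
    field_simp
  rw [hc']
  field_simp
  ring

/-- monotonicity in the constant -/
theorem hyper_mono {n : ℕ} {Ω : Set (Euc n)} {C C' : ℝ} (h : C ≤ C')
    (H : HyperplaneInequality C Ω) : HyperplaneInequality C' Ω := fun E h1 h2 h3 =>
  (H E h1 h2 h3).trans (mul_le_mul_left (ENNReal.ofReal_le_ofReal h) _)

/-- the comparison of the Cheeger constants -/
theorem cuts_of {n : ℕ} (hn : 1 ≤ n) {Ω : Set (Euc n)} (hΩ : Domain Ω) {c : ℝ} (hc : 0 < c)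
    (H : ∀ t : ℝ, 0 < t → (∀ a : Euc n, a ≠ 0 → ENNReal.ofReal t * volume Ω ≤ sectionArea Ω a) →
      ∀ E : Set (Euc n), MeasurableSet E → E ⊆ Ω →
        ENNReal.ofReal (c * t) * min (volume E) (volume (Ω \ E)) ≤ perimeter E Ω) :
    hyperplaneCheeger Ω ≤ ENNReal.ofReal (2 / c) * cheeger Ω := by
  have hΩt : volume Ω ≠ ⊤ := hΩ.bdd.measure_lt_top.ne
  have hΩ0 : volume Ω ≠ 0 := (hΩ.isOpen.measure_pos volume hΩ.nonempty).ne'
  have h2t : volume Ω / 2 ≠ ⊤ := ENNReal.div_ne_top hΩt two_ne_zero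
  have h20 : volume Ω / 2 ≠ 0 := (ENNReal.half_pos hΩ0).ne'
  obtain ⟨m, hm⟩ : ∃ m, m = hyperplaneCheeger Ω := ⟨_, rfl⟩
  rw [← hm]
  obtain ⟨Cs, hCs, hs⟩ := Pool.Agent.W695.KH.sec_bound
  have hne : Nonempty (Fin n) := ⟨⟨0, hn⟩⟩
  have hmt : m ≠ ⊤ := by
    obtain ⟨i⟩ := hne
    have h1 : ‖EuclideanSpace.single i (1 : ℝ)‖ = 1 := by simp
    have h2 := (hs (Fin n) Ω hΩ.isOpen hΩ.convex hΩ.bdd (zero_mem hΩ) hΩ.symm _ h1).1
    have h3 : EuclideanSpace.single i (1 : ℝ) ≠ 0 := by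
      intro h0
      rw [h0, norm_zero] at h1
      exact zero_ne_one h1
    have h4 : m ≤ sectionArea Ω (EuclideanSpace.single i (1 : ℝ) : Euc n) / (volume Ω / 2) := by
      rw [hm]
      exact iInf₂_le (EuclideanSpace.single i (1 : ℝ) : Euc n) h3
    exact ne_top_of_le_ne_top (ENNReal.div_ne_top h2 h20) h4
  by_cases hm0 : m = 0
  · rw [hm0]
    exact bot_le
  have hmr : 0 < m.toReal := ENNReal.toReal_pos hm0 hmt
  have hme : m = ENNReal.ofReal m.toReal := (ENNReal.ofReal_toReal hmt).symm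
  have htwo : ENNReal.ofReal (m.toReal / 2) = m / 2 := by
    rw [ENNReal.ofReal_div_of_pos two_pos, ← hme]
    simp
  have key : ENNReal.ofReal (c * (m.toReal / 2)) ≤ cheeger Ω := by
    refine le_iInf₂ fun E hE => ?_
    obtain ⟨h1, h2, h3, h4⟩ := hE
    have hEt : volume E ≠ ⊤ := ne_top_of_le_ne_top hΩt (measure_mono h2)
    have h5 := H (m.toReal / 2) (by positivity) (fun a ha => by
      have h5 : m ≤ sectionArea Ω a / (volume Ω / 2) := by
        rw [hm]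
        exact iInf₂_le a ha
      rw [htwo]
      rw [ENNReal.le_div_iff_mul_le (Or.inl h20) (Or.inl h2t)] at h5
      refine le_trans (le_of_eq ?_) h5
      rw [ENNReal.div_eq_inv_mul, ENNReal.div_eq_inv_mul]
      ring) E h1 h2
    rw [ENNReal.le_div_iff_mul_le (Or.inl (lt_min h3 h4).ne')
      (Or.inl (ne_top_of_le_ne_top hEt (min_le_left _ _)))]
    exact h5
  refine le_trans (le_of_eq ?_) (mul_le_mul_right key (ENNReal.ofReal (2 / c)))
  rw [← ENNReal.ofReal_mul (by positivity)]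
  conv_lhs => rw [hme]
  congr 1
  field_simp

/-- the numerical factor -/
theorem sqrt_factor {c κ : ℝ} (hc : 0 ≤ c) (hκ : 0 ≤ κ) (k : ℕ) :
    Real.sqrt (c * κ ^ 2 * (k : ℝ) ^ 5) = Real.sqrt c * κ * (k : ℝ) ^ (5 / 2 : ℝ) := by
  rw [Real.sqrt_mul (by positivity), Real.sqrt_mul hc, Real.sqrt_sq hκ, Real.sqrt_eq_rpow (_ ^ 5),
    ← Real.rpow_natCast, ← Real.rpow_mul (Nat.cast_nonneg k)]
  norm_num

/-- the sets are domains -/
theorem domain_of {n k : ℕ} {m : Fin k → ℕ} {P : ∀ j, Euc n →L[ℝ] Euc (m j)}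
    {ψ : ∀ j, Euc (m j) → ℝ} {κ : ℝ} {D : Set (Fin k → ℝ)} (hψ : ∀ j, Profile κ (ψ j))
    (hD : Levels D) (hbd : Bornology.IsBounded (DefinedBy P ψ D)) : Domain (DefinedBy P ψ D) := by
  have hprof : ∀ j, Pool.Agent.H776.FE.Prof (ψ j) κ := fun j => ⟨(hψ j).even, (hψ j).zero,
    (hψ j).diff, (hψ j).convex, (hψ j).lipschitz⟩
  have hL : Pool.Agent.H776.GE.Lw D := ⟨hD.isOpen, hD.convex, hD.lower, hD.zero⟩
  exact ⟨Pool.Agent.H776.GE.bodyD_open hprof hL, Pool.Agent.H776.GE.bodyD_convex hprof hL, hbd,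
    fun x hx => Pool.Agent.H776.GE.bodyD_symm hprof hx,
    ⟨0, Pool.Agent.H776.GE.bodyD_zero hprof hL⟩⟩

/-- all forms of the inequality from the two Poincare inequalities -/
theorem inequalities_of {C₁ c₂ : ℝ} (hC₁ : 0 < C₁) (hc₂ : 0 < c₂)
    (H1 : ∀ (κ : Type) [Fintype κ] [Nonempty κ] (Ω : Set (EuclideanSpace ℝ κ)),
      IsOpen Ω → Convex ℝ Ω → Bornology.IsBounded Ω → (0 : EuclideanSpace ℝ κ) ∈ Ω →
      (∀ x ∈ Ω, -x ∈ Ω) → ∀ D : ℝ, 0 < D →
      Pool.Agent.H776.KP (Pool.Agent.H776.nm ((closure Ω).indicator fun _ => (1 : ℝ))) D →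
      Pool.Agent.H776.HB (C₁ * Real.sqrt D) Ω)
    (H2 : ∀ (κ : Type) [Fintype κ] (Ω : Set (EuclideanSpace ℝ κ)), IsOpen Ω →
      Convex ℝ Ω → Bornology.IsBounded Ω → (0 : EuclideanSpace ℝ κ) ∈ Ω → (∀ x ∈ Ω, -x ∈ Ω) →
      ∀ D : ℝ, 0 < D →
      Pool.Agent.H776.KP (Pool.Agent.H776.nm ((closure Ω).indicator fun _ => (1 : ℝ))) D →
      ∀ t : ℝ, 0 < t →
      (∀ a : EuclideanSpace ℝ κ, a ≠ 0 →
        ENNReal.ofReal t * volume Ω ≤ Pool.Agent.W695.KH.sec Ω a) →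
      ∀ E : Set (EuclideanSpace ℝ κ), MeasurableSet E → E ⊆ Ω →
        ENNReal.ofReal (c₂ / Real.sqrt D * t) * min (volume E) (volume (Ω \ E)) ≤
          Pool.Agent.W695.KH.per E Ω)
    {n : ℕ} (hn : 1 ≤ n) {Ω : Set (Euc n)} (hΩ : Domain Ω) {C₃ C₄ w : ℝ} (hC₃ : 0 < C₃)
    (hC₄ : 0 < C₄) (hw0 : 0 < w)
    (hkp : Pool.Agent.H776.KP (Pool.Agent.H776.nm ((closure Ω).indicator fun _ => (1 : ℝ)))
      (C₃ * w ^ 2))
    (haffv : ∀ f : Euc n → ℝ, ContDiff ℝ 1 f → Pool.Agent.W695.KH.VV Ω f ≤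
      C₄ * w ^ 2 * mean Ω fun x => mean Ω fun y => (fderiv ℝ f x y) ^ 2) :
    Inequalities ((C₁ * Real.sqrt C₃ + 2 / c₂ * Real.sqrt C₃ + Real.sqrt C₄) * w) Ω := by
  have hne : Nonempty (Fin n) := ⟨⟨0, hn⟩⟩
  have hD0 : 0 < C₃ * w ^ 2 := by positivity
  have hsq : ∀ c : ℝ, 0 ≤ c → Real.sqrt (c * w ^ 2) = Real.sqrt c * w := fun c hc => by
    rw [Real.sqrt_mul hc, Real.sqrt_sq hw0.le]
  set C := C₁ * Real.sqrt C₃ + 2 / c₂ * Real.sqrt C₃ + Real.sqrt C₄ with hC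
  have hc0 : 0 ≤ C₁ * Real.sqrt C₃ := by positivity
  have hc1 : 0 ≤ 2 / c₂ * Real.sqrt C₃ := by positivity
  have hc2 : 0 ≤ Real.sqrt C₄ := by positivity
  have hC0 : 0 ≤ C := by positivity
  have haff : AffinePoincare ((C * w) ^ 2) Ω := by
    intro f hf
    rw [var_form hΩ hf]
    refine (haffv f hf).trans ?_
    refine mul_le_mul_of_nonneg_right ?_ ?_
    · have h5 : C₄ * w ^ 2 = (Real.sqrt C₄ * w) ^ 2 := by
        rw [mul_pow, Real.sq_sqrt hC₄.le]
      rw [h5]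
      refine pow_le_pow_left₀ (by positivity) ?_ 2
      refine mul_le_mul_of_nonneg_right ?_ hw0.le
      linarith
    · exact div_nonneg (integral_nonneg fun x => div_nonneg (integral_nonneg fun y => sq_nonneg _)
        ENNReal.toReal_nonneg) ENNReal.toReal_nonneg
  refine ⟨?_, ?_, ?_, haff⟩
  · -- halves
    have h5 := H1 (Fin n) Ω hΩ.isOpen hΩ.convex hΩ.bdd (zero_mem hΩ) hΩ.symm _ hD0 hkp
    rw [hsq C₃ hC₃.le] at h5
    refine hyper_mono ?_ (hb_iff.2 h5)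
    rw [← mul_assoc]
    refine mul_le_mul_of_nonneg_right ?_ hw0.le
    linarith
  · -- cuts
    have hs3 : 0 < Real.sqrt (C₃ * w ^ 2) := Real.sqrt_pos.2 hD0
    have h5 := cuts_of hn hΩ (c := c₂ / Real.sqrt (C₃ * w ^ 2)) (by positivity)
      (fun t ht hsec E hE hEΩ => by
        rw [← perimeter_eq]
        exact H2 (Fin n) Ω hΩ.isOpen hΩ.convex hΩ.bdd (zero_mem hΩ) hΩ.symm _ hD0 hkp t ht hsec E
          hE hEΩ)
    refine h5.trans (mul_le_mul_left (ENNReal.ofReal_le_ofReal ?_) _)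
    have e : 2 / (c₂ / Real.sqrt (C₃ * w ^ 2)) = 2 / c₂ * Real.sqrt C₃ * w := by
      rw [mul_assoc (2 / c₂), ← hsq C₃ hC₃.le]
      field_simp
    rw [e]
    refine mul_le_mul_of_nonneg_right ?_ hw0.le
    linarith
  · -- functions
    intro s hs f hf
    refine (haff f hf).trans ?_
    rw [mul_assoc]
    refine mul_le_mul_of_nonneg_left ?_ (sq_nonneg _)
    have hΩt : volume Ω ≠ ⊤ := hΩ.bdd.measure_lt_top.ne
    have hV : 0 < (volume Ω).toReal :=
      ENNReal.toReal_pos (hΩ.isOpen.measure_pos volume hΩ.nonempty).ne' hΩt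
    have hpt : ∀ x : Euc n, mean Ω (fun y => (fderiv ℝ f x y) ^ 2) ≤ s * ‖fderiv ℝ f x‖ ^ 2 := by
      intro x
      obtain ⟨v, hv, hvn⟩ : ∃ v : Euc n, (∀ y, fderiv ℝ f x y = ⟪y, v⟫_ℝ) ∧
          ‖v‖ = ‖fderiv ℝ f x‖ := by
        refine ⟨(InnerProductSpace.toDual ℝ (Euc n)).symm (fderiv ℝ f x), fun y => ?_,
          LinearIsometryEquiv.norm_map _ _⟩
        rw [real_inner_comm, InnerProductSpace.toDual_symm_apply]
      simp only [hv]
      rw [← hvn]
      by_cases hv0 : v = 0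
      · subst hv0
        unfold mean
        simp
      · have hn0 : 0 < ‖v‖ := norm_pos_iff.2 hv0
        have h2 := hs (‖v‖⁻¹ • v) (by
          rw [norm_smul, norm_inv, norm_norm, inv_mul_cancel₀ hn0.ne'])
        have e : ∀ y : Euc n, ⟪y, v⟫_ℝ ^ 2 = ‖v‖ ^ 2 * ⟪y, ‖v‖⁻¹ • v⟫_ℝ ^ 2 := by
          intro y
          rw [inner_smul_right, mul_pow, inv_pow, ← mul_assoc, mul_inv_cancel₀ (by positivity),
            one_mul]
        have h3 : mean Ω (fun y => ⟪y, v⟫_ℝ ^ 2) =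
            ‖v‖ ^ 2 * mean Ω (fun y => ⟪y, ‖v‖⁻¹ • v⟫_ℝ ^ 2) := by
          unfold mean
          simp only [e]
          rw [integral_const_mul, mul_div_assoc]
        rw [h3, mul_comm s]
        exact mul_le_mul_of_nonneg_left h2 (by positivity)
    have h5 : ∀ g : Euc n → ℝ, s * mean Ω g = mean Ω (fun x => s * g x) := by
      intro g
      unfold mean
      rw [integral_const_mul, mul_div_assoc]
    rw [h5]
    unfold mean at hpt ⊢
    refine div_le_div_of_nonneg_right ?_ hV.le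
    have hcf : Continuous fun x => ‖fderiv ℝ f x‖ ^ 2 :=
      ((hf.continuous_fderiv one_ne_zero).norm.pow 2)
    refine integral_mono_of_nonneg (Filter.Eventually.of_forall fun x => ?_)
      ((((continuous_const.mul hcf).continuousOn (s := closure Ω)).integrableOn_compact
        hΩ.bdd.isCompact_closure).mono_set subset_closure) (Filter.Eventually.of_forall hpt)
    exact div_nonneg (integral_nonneg fun y => sq_nonneg _) hV.le

/-- **the main theorem** -/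
theorem main : ∃ C : ℝ, 0 < C ∧ ∀ (n k : ℕ), 1 ≤ n → ∀ (m : Fin k → ℕ)
    (P : ∀ j, Euc n →L[ℝ] Euc (m j)) (ψ : ∀ j, Euc (m j) → ℝ) (κ : ℝ) (D : Set (Fin k → ℝ)),
    1 ≤ κ → (∀ j, Profile κ (ψ j)) → Levels D → Bornology.IsBounded (DefinedBy P ψ D) →
    Domain (DefinedBy P ψ D) ∧
      Inequalities (C * κ * (k : ℝ) ^ (5 / 2 : ℝ)) (DefinedBy P ψ D) := by
  obtain ⟨C₁, hC₁, H1⟩ := Pool.Agent.H776.hb_of_kp
  obtain ⟨c₂, hc₂, H2⟩ := Pool.Agent.H776.FE.exists_cut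
  obtain ⟨C₃, hC₃, H3⟩ := Pool.Agent.H776.GE.exists_kp_body
  obtain ⟨C₄, hC₄, H4⟩ := Pool.Agent.H776.GE.exists_aff_body
  refine ⟨C₁ * Real.sqrt C₃ + 2 / c₂ * Real.sqrt C₃ + Real.sqrt C₄, by positivity, ?_⟩
  intro n k hn m P ψ κ D hκ hψ hD hbd
  have hne : Nonempty (Fin n) := ⟨⟨0, hn⟩⟩
  have hκ0 : 0 < κ := by linarith
  have hΩ := domain_of hψ hD hbd
  refine ⟨hΩ, ?_⟩
  have hprof : ∀ j, Pool.Agent.H776.FE.Prof (ψ j) κ := fun j => ⟨(hψ j).even, (hψ j).zero,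
    (hψ j).diff, (hψ j).convex, (hψ j).lipschitz⟩
  have hL : Pool.Agent.H776.GE.Lw D := ⟨hD.isOpen, hD.convex, hD.lower, hD.zero⟩
  -- `k` is positive
  have hk : 0 < k := by
    rcases Nat.eq_zero_or_pos k with h0 | h0
    · exfalso
      subst h0
      have h1 : DefinedBy P ψ D = univ := by
        refine eq_univ_of_forall fun x => ?_
        have e : (fun j => ψ j (P j x)) = (0 : Fin 0 → ℝ) := by
          funext j
          exact j.elim0
        show (fun j => ψ j (P j x)) ∈ D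
        rw [e]
        exact hD.zero
      rw [h1] at hbd
      exact NormedSpace.unbounded_univ ℝ (Euc n) hbd
    · exact h0
  have hk0 : (0 : ℝ) < k := Nat.cast_pos.2 hk
  obtain ⟨w, hw⟩ : ∃ w : ℝ, w = κ * (k : ℝ) ^ (5 / 2 : ℝ) := ⟨_, rfl⟩
  have hw0 : 0 < w := by rw [hw]; positivity
  have hw2 : w ^ 2 = κ ^ 2 * (k : ℝ) ^ 5 := by
    rw [hw, mul_pow, ← Real.rpow_natCast (_ ^ (5 / 2 : ℝ)), ← Real.rpow_mul hk0.le]
    norm_num
  rw [mul_assoc, ← hw]
  refine inequalities_of hC₁ hc₂ (fun κ _ _ => H1 κ) (fun κ _ => H2 κ) hn hΩ hC₃ hC₄ hw0 ?_ ?_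
  · rw [hw2, ← mul_assoc]
    exact H3 (Fin n) k (fun j => Fin (m j)) P ψ κ D hκ hprof hL hbd hk
  · rw [hw2, ← mul_assoc]
    exact H4 (Fin n) k (fun j => Fin (m j)) P ψ κ D hκ hprof hL hbd hk

/-- **the main theorem, with linear functionals and without evenness of the functions** -/
theorem main2 : ∃ C : ℝ, 0 < C ∧ ∀ (n k d : ℕ), 1 ≤ n → 1 ≤ k → ∀ (m : Fin k → ℕ)
    (P : ∀ j, Euc n →L[ℝ] Euc (m j)) (ψ : ∀ j, Euc (m j) → ℝ) (b : Fin k → Euc n)
    (a : Fin d → Euc n) (κ : ℝ) (D : Set ((Fin k → ℝ) × (Fin d → ℝ))), 1 ≤ κ →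
    (∀ j, UCS κ (ψ j)) → MixedLevels D → Domain (MixedBy P ψ b a D) →
    Inequalities (C * κ * (k : ℝ) ^ (5 / 2 : ℝ) * Real.sqrt (k + d)) (MixedBy P ψ b a D) := by
  obtain ⟨C₁, hC₁, H1⟩ := Pool.Agent.H776.hb_of_kp
  obtain ⟨c₂, hc₂, H2⟩ := Pool.Agent.H776.FE.exists_cut
  obtain ⟨C₃, hC₃, H3⟩ := Pool.Agent.H776.ND.kp_open
  obtain ⟨C₄, hC₄, H4⟩ := Pool.Agent.H776.ND.aff_open
  refine ⟨C₁ * Real.sqrt C₃ + 2 / c₂ * Real.sqrt C₃ + Real.sqrt C₄, by positivity, ?_⟩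
  intro n k d hn hk m P ψ b a κ D hκ hψ hD hΩ
  have hκ0 : 0 < κ := by linarith
  have hprf : ∀ j, Pool.Agent.H776.ND.Prf (ψ j) κ := fun j =>
    ⟨(hψ j).diff, (hψ j).convex, (hψ j).lipschitz⟩
  choose P' hP' using fun j => Pool.Agent.H776.ND.exists_same (P j)
  have hcf := Pool.Agent.H776.ND.cf_of_prf (β := b) hκ hprf hP'
  obtain ⟨F, hF⟩ : ∃ F : Fin k → Euc n → ℝ, F = fun j x => ψ j (P j x) + inner ℝ (b j) x :=
    ⟨_, rfl⟩
  rw [← hF] at hcf
  -- the linear functionals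
  let L₀ : Euc n →ₗ[ℝ] Euc d :=
    { toFun := fun x => WithLp.toLp 2 fun i => inner ℝ (a i) x
      map_add' := fun x y => by
        ext i
        simp [inner_add_right]
      map_smul' := fun c x => by
        ext i
        simp [real_inner_smul_right] }
  obtain ⟨L, hL⟩ : ∃ L : Euc n →L[ℝ] Euc d, L = L₀.toContinuousLinearMap := ⟨_, rfl⟩
  have hLx : ∀ x, (fun i => L x i) = fun i => inner ℝ (a i) x := fun x => by
    rw [hL]
    rfl
  obtain ⟨D', hD'⟩ : ∃ D' : Set ((Fin k → ℝ) × Euc d), D' = {p | (p.1, fun i => p.2 i) ∈ D} :=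
    ⟨_, rfl⟩
  have hlo : Pool.Agent.H776.ND.Lo D' := by
    rw [hD']
    refine ⟨?_, fun p hp q hq x y hx hy hxy => ?_, fun s t z h hst => hD.lower _ _ _ h hst⟩
    · refine hD.isOpen.preimage ?_
      exact continuous_fst.prodMk (continuous_pi fun i => by fun_prop)
    · exact hD.convex hp hq hx hy hxy
  have hbo : MixedBy P ψ b a D = Pool.Agent.H776.ND.Bo F L D' := by
    ext x
    show ((fun j => ψ j (P j x) + inner ℝ (b j) x), fun i => inner ℝ (a i) x) ∈ D ↔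
      ((fun j => F j x), L x) ∈ D'
    rw [hD', hF, ← hLx]
    rfl
  have h0 := zero_mem hΩ
  have hsym := hΩ.symm
  have hbd := hΩ.bdd
  obtain ⟨w, hw⟩ : ∃ w : ℝ, w = κ * (k : ℝ) ^ (5 / 2 : ℝ) * Real.sqrt (k + d) := ⟨_, rfl⟩
  have hk0 : (0 : ℝ) < k := Nat.cast_pos.2 hk
  have hd0 : (0 : ℝ) ≤ d := Nat.cast_nonneg d
  have hw0 : 0 < w := by rw [hw]; positivity
  have hw2 : w ^ 2 = κ ^ 2 * (k : ℝ) ^ 5 * ((k + d : ℕ) : ℝ) := by
    rw [hw, mul_pow, mul_pow, Real.sq_sqrt (by positivity),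
      ← Real.rpow_natCast (_ ^ (5 / 2 : ℝ)), ← Real.rpow_mul hk0.le]
    push_cast
    norm_num
  have e : ∀ C : ℝ, C * κ * (k : ℝ) ^ (5 / 2 : ℝ) * Real.sqrt (k + d) = C * w := fun C => by
    rw [hw]
    ring
  have e2 : ∀ C : ℝ, C * w ^ 2 = C * κ ^ 2 * (k : ℝ) ^ 5 * ((k + d : ℕ) : ℝ) := fun C => by
    rw [hw2]
    ring
  rw [e]
  refine inequalities_of hC₁ hc₂ (fun κ _ _ => H1 κ) (fun κ _ => H2 κ) hn hΩ hC₃ hC₄ hw0 ?_ ?_
  · rw [e2]
    rw [hbo] at h0 hsym hbd ⊢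
    exact H3 n k d F P' κ L D' hcf hlo hk hbd h0 hsym
  · rw [e2]
    rw [hbo] at h0 hsym hbd ⊢
    exact H4 n k d F P' κ L D' hcf hlo hk hbd h0

/-- monotonicity in the constant -/
theorem Inequalities.mono {n : ℕ} (hn : 1 ≤ n) {C C' : ℝ} {Ω : Set (Euc n)} (hC : 0 ≤ C)
    (h : C ≤ C') (H : Inequalities C Ω) : Inequalities C' Ω := by
  have h2 : C ^ 2 ≤ C' ^ 2 := pow_le_pow_left₀ hC h 2
  have hnn : ∀ g : Euc n → ℝ, (∀ x, 0 ≤ g x) → 0 ≤ mean Ω g := fun g hg =>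
    div_nonneg (integral_nonneg hg) ENNReal.toReal_nonneg
  refine ⟨hyper_mono h H.halves, H.cuts.trans (mul_le_mul_left (ENNReal.ofReal_le_ofReal h) _),
    fun s hs f hf => ?_, fun f hf => ?_⟩
  · refine (H.functions s hs f hf).trans ?_
    refine mul_le_mul_of_nonneg_right ?_ (hnn _ fun x => sq_nonneg _)
    have h3 := hs (EuclideanSpace.single ⟨0, hn⟩ (1 : ℝ)) (by simp)
    exact mul_le_mul_of_nonneg_right h2 ((hnn _ fun x => sq_nonneg _).trans h3)
  · exact (H.affine f hf).trans (mul_le_mul_of_nonneg_right h2 (hnn _ fun x =>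
      hnn _ fun y => sq_nonneg _))

/-- **(1)** for all positive semidefinite `n × n` matrices `Q_1, …, Q_k` and all open convex lower sets
`D ⊆ ℝᵏ`, `0 ∈ D`, the domain `Ω = {x : (xᵀ Q_1 x, …, xᵀ Q_k x) ∈ D}`, if bounded, satisfies Q1 with the
constant `C k^{5/2}`: `inf_a H_{n-1}(Ω ∩ a^⊥) ≤ C k^{5/2} P(E; Ω)` if `|E| = |Ω| / 2`; moreover
`inf_a H_{n-1}(Ω ∩ a^⊥) / (|Ω| / 2) ≤ C k^{5/2} h(Ω)` for the Cheeger constant `h(Ω)`, and, with
`A = (C k^{5/2})²`, `Var_Ω f ≤ A ‖Cov‖ E ‖∇f‖²` and `Var_Ω f ≤ A E ⟨Cov ∇f, ∇f⟩` for all `C¹`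
functions `f` -/
def Forms (C : ℝ) : Prop :=
  ∀ (n k : ℕ), 1 ≤ n → ∀ (Q : Fin k → Matrix (Fin n) (Fin n) ℝ) (D : Set (Fin k → ℝ)),
    (∀ j, (Q j).PosSemidef) → Levels D → Bornology.IsBounded {x : Euc n | forms Q x ∈ D} →
    Domain {x : Euc n | forms Q x ∈ D} ∧
      Inequalities (C * (k : ℝ) ^ (5 / 2 : ℝ)) {x : Euc n | forms Q x ∈ D}

/-- **(2)** in particular this holds for the bounded intersections of `k` arbitrary centred ellipsoids
`xᵀ Q_j x < 1` (degenerate ones, such as slabs, are allowed) -/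
def Ellipsoids (C : ℝ) : Prop :=
  ∀ (n k : ℕ), 1 ≤ n → ∀ Q : Fin k → Matrix (Fin n) (Fin n) ℝ, (∀ j, (Q j).PosSemidef) →
    Bornology.IsBounded {x : Euc n | ∀ j, forms Q x j < 1} →
    Domain {x : Euc n | ∀ j, forms Q x j < 1} ∧
      Inequalities (C * (k : ℝ) ^ (5 / 2 : ℝ)) {x : Euc n | ∀ j, forms Q x j < 1}

/-- **(3)** for all linear maps `P_j` and all even profiles `ψ_j` (`ψ_j - ‖·‖²` convex, `∇ψ_j`
`2κ`-Lipschitz) the same holds for `Ω = {x : (ψ_1(P_1 x), …, ψ_k(P_k x)) ∈ D}` with the constant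
`C κ k^{5/2}` -/
def Profiles (C : ℝ) : Prop :=
  ∀ (n k : ℕ), 1 ≤ n → ∀ (m : Fin k → ℕ) (P : ∀ j, Euc n →L[ℝ] Euc (m j))
    (ψ : ∀ j, Euc (m j) → ℝ) (κ : ℝ) (D : Set (Fin k → ℝ)), 1 ≤ κ → (∀ j, Profile κ (ψ j)) →
    Levels D → Bornology.IsBounded (DefinedBy P ψ D) →
    Domain (DefinedBy P ψ D) ∧ Inequalities (C * κ * (k : ℝ) ^ (5 / 2 : ℝ)) (DefinedBy P ψ D)

/-- **(4)** the same holds with the constant `C κ k^{5/2} (k + d)^{1/2}` for all domains
`Ω = {x : (F_1(x), …, F_k(x), ⟪a_1, x⟫, …, ⟪a_d, x⟫) ∈ D}`, `F_j(x) = ψ_j(P_j x) + ⟪b_j, x⟫` (the domain is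
symmetric, but the functions `F_j` need not be even), if `D ⊆ ℝᵏ × ℝᵈ` is open, convex and lower in the
first `k` coordinates -/
def Mixed (C : ℝ) : Prop :=
  ∀ (n k d : ℕ), 1 ≤ n → 1 ≤ k → ∀ (m : Fin k → ℕ) (P : ∀ j, Euc n →L[ℝ] Euc (m j))
    (ψ : ∀ j, Euc (m j) → ℝ) (b : Fin k → Euc n) (a : Fin d → Euc n) (κ : ℝ)
    (D : Set ((Fin k → ℝ) × (Fin d → ℝ))), 1 ≤ κ → (∀ j, UCS κ (ψ j)) →
    MixedLevels D → Domain (MixedBy P ψ b a D) →
    Inequalities (C * κ * (k : ℝ) ^ (5 / 2 : ℝ) * Real.sqrt (k + d)) (MixedBy P ψ b a D)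

/-- **(5)** for the intersections of an ellipsoid `xᵀ Q x < 1` and `d` slabs `|x_i| < 1`, `i ≤ d`, this is
the constant `C (1 + d)^{1/2}`; but for every sequence `d(n) → ∞`, however slowly it grows, Q1 with a
constant `B` for all these domains with `d = d(n)` would imply Q1 with the constant `C B` for all
symmetric domains -/
def SlabsDichotomy (C : ℝ) : Prop :=
  (∀ (n d : ℕ), 1 ≤ n → ∀ Q : Matrix (Fin n) (Fin n) ℝ, Q.PosDef →
    Domain (InSlabs d Q) ∧ Inequalities (C * Real.sqrt (1 + d)) (InSlabs d Q)) ∧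
  ∀ d : ℕ → ℕ, Filter.Tendsto d Filter.atTop Filter.atTop → ∀ B : ℝ, 0 < B →
    (∀ n : ℕ, 1 ≤ n → ∀ Q : Matrix (Fin n) (Fin n) ℝ, Q.PosDef →
      HyperplaneInequality B (InSlabs (d n) Q)) →
    ∀ n : ℕ, 1 ≤ n → ∀ Ω : Set (Euc n), Domain Ω → HyperplaneInequality (C * B) Ω

theorem sl_eq {n d : ℕ} {F : Type} [Fintype F] {A : Euc n →ₗ[ℝ] EuclideanSpace ℝ F}
    {Q : Matrix (Fin n) (Fin n) ℝ} (h : ∀ x : Euc n, ‖A x‖ ^ 2 = ∑ i, ∑ j, Q i j * x i * x j) :
    Pool.Agent.H776.SL d A = InSlabs d Q := by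
  ext x
  unfold Pool.Agent.H776.SL InSlabs
  rw [mem_ofPred_eq, mem_ofPred_eq, h]

/-- **few slabs** -/
theorem few {C : ℝ} (H : Mixed C) (n d : ℕ) (hn : 1 ≤ n) (Q : Matrix (Fin n) (Fin n) ℝ)
    (hQ : Q.PosDef) :
    Domain (InSlabs d Q) ∧ Inequalities (C * Real.sqrt (1 + d)) (InSlabs d Q) := by
  obtain ⟨A, hA, hx⟩ := Pool.Agent.H776.exists_map hQ
  have hAc : Continuous A := A.continuous_of_finiteDimensional
  obtain ⟨q, hq, hqA⟩ := Pool.Agent.H776.exists_q hA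
  have hsq : Pool.Agent.H776.FE.Prof (fun y : Euc n => ‖y‖ ^ 2) 1 :=
    Pool.Agent.H776.FE.prof_sq (W := Euc n)
  have hcv : ConvexOn ℝ univ fun z : Euc n => ‖A z‖ ^ 2 := by
    have h2 : ConvexOn ℝ univ fun y : Euc n => ‖y‖ ^ 2 :=
      convexOn_univ_norm.pow (fun x _ => norm_nonneg x) 2
    exact h2.comp_linearMap A
  have hdom : Domain (InSlabs d Q) := by
    rw [← sl_eq hx]
    refine ⟨Pool.Agent.H776.SL_open, ?_, ?_, ?_, ⟨0, fun i _ => by simp, by simp⟩⟩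
    · intro x hx y hy a b ha hb hab
      refine ⟨fun i hi => ?_, ?_⟩
      · have h1 := hx.1 i hi
        have h2 := hy.1 i hi
        simp only [PiLp.add_apply, PiLp.smul_apply, smul_eq_mul]
        rw [abs_lt] at h1 h2 ⊢
        rcases ha.eq_or_lt with h0 | h0
        · have : b = 1 := by linarith
          rw [← h0, this]
          constructor <;> linarith [h2.1, h2.2]
        · constructor <;> nlinarith [h1.1, h1.2, h2.1, h2.2]
      · have h1 := hx.2
        have h2 := hy.2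
        have h3 := hcv.2 (mem_univ x) (mem_univ y) ha hb hab
        simp only [smul_eq_mul] at h3
        refine h3.trans_lt ?_
        rcases ha.eq_or_lt with h0 | h0
        · have : b = 1 := by linarith
          rw [← h0, this]
          linarith
        · nlinarith
    · refine (Metric.isBounded_closedBall (x := (0 : Euc n)) (r := q⁻¹)).subset fun y hy => ?_
      rw [Metric.mem_closedBall, dist_zero_right]
      have h1 := hqA y
      have h2 : ‖A y‖ ≤ 1 := by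
        have := hy.2
        nlinarith [norm_nonneg (A y)]
      rw [← one_div, le_div_iff₀ hq]
      linarith
    · rintro x ⟨h1, h2⟩
      refine ⟨fun i hi => ?_, ?_⟩
      · rw [PiLp.neg_apply, abs_neg]
        exact h1 i hi
      · rw [map_neg, norm_neg]
        exact h2
  refine ⟨hdom, ?_⟩
  obtain ⟨a, ha⟩ : ∃ a : Fin d → Euc n, a = fun i : Fin d => if h : (i : ℕ) < n then
    EuclideanSpace.single (⟨i, h⟩ : Fin n) (1 : ℝ) else 0 := ⟨_, rfl⟩
  have hax : ∀ x : Euc n, (∀ i : Fin d, |inner ℝ (a i) x| < 1) ↔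
      ∀ i : Fin n, (i : ℕ) < d → |x i| < 1 := by
    intro x
    constructor
    · intro h i hi
      have h1 := h ⟨i, hi⟩
      rw [ha] at h1
      simp only [Fin.is_lt, dif_pos, Fin.eta, EuclideanSpace.inner_single_left, map_one,
        one_mul] at h1
      exact h1
    · intro h i
      by_cases hi : (i : ℕ) < n
      · have h1 := h ⟨i, hi⟩ i.2
        rw [ha]
        simp only [dif_pos hi, EuclideanSpace.inner_single_left, map_one, one_mul]
        exact h1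
      · rw [ha]
        simp only [dif_neg hi, inner_zero_left, abs_zero, zero_lt_one]
  obtain ⟨D, hD⟩ : ∃ D : Set ((Fin 1 → ℝ) × (Fin d → ℝ)),
    D = {p | p.1 0 < 1 ∧ ∀ i, |p.2 i| < 1} := ⟨_, rfl⟩
  have hlow : MixedLevels D := by
    rw [hD]
    refine ⟨?_, ?_, ?_⟩
    · have h1 : IsOpen {p : (Fin 1 → ℝ) × (Fin d → ℝ) | ∀ i, |p.2 i| < 1} := by
        rw [ofPred_forall]
        exact isOpen_iInter_of_finite fun i => isOpen_lt (by fun_prop) continuous_const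
      have h2 : IsOpen {p : (Fin 1 → ℝ) × (Fin d → ℝ) | p.1 0 < 1} :=
        isOpen_lt (by fun_prop) continuous_const
      exact h2.inter h1
    · intro p hp q hq s t hs ht hst
      refine ⟨?_, fun i => ?_⟩
      · have h1 := hp.1
        have h2 := hq.1
        simp only [Prod.fst_add, Prod.smul_fst, Pi.add_apply, Pi.smul_apply, smul_eq_mul]
        rcases hs.eq_or_lt with h0 | h0
        · have : t = 1 := by linarith
          rw [← h0, this]
          linarith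
        · nlinarith
      · have h1 := hp.2 i
        have h2 := hq.2 i
        simp only [Prod.snd_add, Prod.smul_snd, Pi.add_apply, Pi.smul_apply, smul_eq_mul]
        rw [abs_lt] at h1 h2 ⊢
        rcases hs.eq_or_lt with h0 | h0
        · have : t = 1 := by linarith
          rw [← h0, this]
          constructor <;> linarith [h2.1, h2.2]
        · constructor <;> nlinarith [h1.1, h1.2, h2.1, h2.2]
    · intro s t z hs hst
      exact ⟨(hst 0).trans_lt hs.1, hs.2⟩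
  have hK : InSlabs d Q = MixedBy (fun _ : Fin 1 => A.toContinuousLinearMap)
      (fun _ (y : Euc n) => ‖y‖ ^ 2) (fun _ => 0) a D := by
    ext x
    rw [hD]
    simp only [InSlabs, MixedBy, mem_ofPred_eq, LinearMap.coe_toContinuousLinearMap', hx,
      inner_zero_left, add_zero, hax]
    exact and_comm
  have h1 := H n 1 d hn le_rfl (fun _ => n) (fun _ => A.toContinuousLinearMap)
    (fun _ (y : Euc n) => ‖y‖ ^ 2) (fun _ => 0) a 1 D le_rfl
    (fun _ => ⟨hsq.diff, hsq.conv, hsq.lip⟩) hlow (by rw [← hK]; exact hdom)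
  rwa [← hK, Nat.cast_one, Real.one_rpow, mul_one, mul_one] at h1

/-- **many slabs** -/
theorem many : ∃ C : ℝ, 0 < C ∧ ∀ d : ℕ → ℕ, Filter.Tendsto d Filter.atTop Filter.atTop →
    ∀ B : ℝ, 0 < B →
    (∀ n : ℕ, 1 ≤ n → ∀ Q : Matrix (Fin n) (Fin n) ℝ, Q.PosDef →
      HyperplaneInequality B (InSlabs (d n) Q)) →
    ∀ n : ℕ, 1 ≤ n → ∀ Ω : Set (Euc n), Domain Ω → HyperplaneInequality (C * B) Ω := by
  obtain ⟨C₁, hC₁, H⟩ := Pool.Agent.H776.hb_of_kp
  refine ⟨C₁ * Real.sqrt 128, by positivity, fun d hd B hB h n hn Ω hΩ => ?_⟩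
  have hne : Nonempty (Fin n) := ⟨⟨0, hn⟩⟩
  have hb := Pool.Agent.H776.body_closure hΩ.isOpen hΩ.convex hΩ.bdd (zero_mem hΩ)
  have hs : ∀ x ∈ closure Ω, -x ∈ closure Ω := fun x hx => by
    have h1 : closure Ω ⊆ (fun y : Euc n => -y) ⁻¹' closure Ω := by
      refine closure_minimal (fun y hy => subset_closure (hΩ.symm y hy)) ?_
      exact isClosed_closure.preimage continuous_neg
    exact h1 hx
  have h1 := Pool.Agent.H776.kp_of_slabs hB hd (fun m hm F' _ A hA => by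
    obtain ⟨Q, hQ, -, hQx⟩ := Pool.Agent.H776.exists_matrix A hA
    rw [sl_eq hQx]
    exact hb_iff.1 (h m hm Q hQ)) hb hs
  have h2 := H (Fin n) Ω hΩ.isOpen hΩ.convex hΩ.bdd (zero_mem hΩ) hΩ.symm (128 * B ^ 2)
    (by positivity) h1
  have e : C₁ * Real.sqrt (128 * B ^ 2) = C₁ * Real.sqrt 128 * B := by
    rw [Real.sqrt_mul (by norm_num), Real.sqrt_sq hB.le, mul_assoc]
  rw [e] at h2
  exact hb_iff.2 h2

/-- **The hyperplane conjecture (Q1) for bodies defined by few ellipsoids, or by few convex functions and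
linear functionals, in all dimensions.** There is an absolute constant `C` such that (1), (2), (3),
(4), (5) above hold for all `n ≥ 1`, `k`, `d`. -/
theorem result : ∃ C : ℝ, 0 < C ∧ Forms C ∧ Ellipsoids C ∧
    Profiles C ∧ Mixed C ∧ SlabsDichotomy C := by
  obtain ⟨C₁, hC₁, H₁⟩ := main
  obtain ⟨C₂, hC₂, H₂⟩ := main2
  obtain ⟨C₃, hC₃, H₃⟩ := many
  obtain ⟨C, hCd⟩ : ∃ C : ℝ, C = max (max C₁ C₂) C₃ := ⟨_, rfl⟩
  have hcl₁ : C₁ ≤ C := by rw [hCd]; exact (le_max_left _ _).trans (le_max_left _ _)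
  have hcl₂ : C₂ ≤ C := by rw [hCd]; exact (le_max_right _ _).trans (le_max_left _ _)
  have hcl₃ : C₃ ≤ C := by rw [hCd]; exact le_max_right _ _
  have hC : 0 < C := hC₁.trans_le hcl₁
  have H : ∀ (n k : ℕ), 1 ≤ n → ∀ (m : Fin k → ℕ) (P : ∀ j, Euc n →L[ℝ] Euc (m j))
      (ψ : ∀ j, Euc (m j) → ℝ) (κ : ℝ) (D : Set (Fin k → ℝ)), 1 ≤ κ → (∀ j, Profile κ (ψ j)) →
      Levels D → Bornology.IsBounded (DefinedBy P ψ D) →
      Domain (DefinedBy P ψ D) ∧
        Inequalities (C * κ * (k : ℝ) ^ (5 / 2 : ℝ)) (DefinedBy P ψ D) := by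
    intro n k hn m P ψ κ D hκ hψ hD hbd
    obtain ⟨h1, h2⟩ := H₁ n k hn m P ψ κ D hκ hψ hD hbd
    have hκ0 : 0 < κ := by linarith
    exact ⟨h1, h2.mono hn (by positivity) (by gcongr)⟩
  have H1 : ∀ (n k : ℕ), 1 ≤ n → ∀ (Q : Fin k → Matrix (Fin n) (Fin n) ℝ) (D : Set (Fin k → ℝ)),
      (∀ j, (Q j).PosSemidef) → Levels D → Bornology.IsBounded {x : Euc n | forms Q x ∈ D} →
      Domain {x : Euc n | forms Q x ∈ D} ∧
        Inequalities (C * (k : ℝ) ^ (5 / 2 : ℝ)) {x : Euc n | forms Q x ∈ D} := by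
    intro n k hn Q D hQ hD hbd
    choose A hA using fun j => Pool.Agent.H776.FE.exists_map_psd (hQ j)
    have e : {x : Euc n | forms Q x ∈ D} = DefinedBy (fun j => (A j).toContinuousLinearMap)
        (fun _ (y : Euc n) => ‖y‖ ^ 2) D := by
      ext x
      have e1 : forms Q x = fun j => ‖(A j).toContinuousLinearMap x‖ ^ 2 := by
        funext j
        rw [LinearMap.coe_toContinuousLinearMap', hA]
        rfl
      show forms Q x ∈ D ↔ (fun j => ‖(A j).toContinuousLinearMap x‖ ^ 2) ∈ D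
      rw [e1]
    rw [e] at hbd ⊢
    have h1 := H n k hn (fun _ => n) (fun j => (A j).toContinuousLinearMap)
      (fun _ (y : Euc n) => ‖y‖ ^ 2) 1 D le_rfl (fun j => by
        have h2 := Pool.Agent.H776.FE.prof_sq (W := Euc n)
        exact ⟨h2.even, h2.zero, h2.diff, h2.conv, h2.lip⟩) hD hbd
    rwa [mul_one] at h1
  have HM : Mixed C := fun n k d hn hk m P ψ b a κ D hκ hψ hD hΩ => by
    have hκ0 : 0 < κ := by linarith
    exact (H₂ n k d hn hk m P ψ b a κ D hκ hψ hD hΩ).mono hn (by positivity) (by gcongr)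
  refine ⟨C, hC, H1, fun n k hn Q hQ hbd => ?_, H, HM, few HM,
    fun d hd B hB h n hn Ω hΩ => hyper_mono (by gcongr) (H₃ d hd B hB h n hn Ω hΩ)⟩
  have hL : Levels {s : Fin k → ℝ | ∀ j, s j < 1} := by
    refine ⟨?_, ?_, fun s hs t ht j => (ht j).trans_lt (hs j), fun j => one_pos⟩
    · have e : {s : Fin k → ℝ | ∀ j, s j < 1} = ⋂ j, {s | s j < 1} := by
        ext s
        simp
      rw [e]
      exact isOpen_iInter_of_finite fun j => isOpen_lt (continuous_apply j) continuous_const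
    · intro s hs t ht a b ha hb hab j
      simp only [Pi.add_apply, Pi.smul_apply, smul_eq_mul]
      have h1 := hs j
      have h2 := ht j
      rcases ha.eq_or_lt with h0 | h0
      · have : b = 1 := by linarith
        rw [← h0, this]
        linarith
      · nlinarith
  exact H1 n k hn Q _ hQ hL hbd

end Pool.Agent.Results.MP_dc1397_gt.FewEllipsoids
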