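import Pool.Agent.H776.TS4
import Pool.Agent.H776.EV7

/-!
# The hyperplane conjecture is equivalent to its case of pseudorandom sets

In Q1 it suffices to consider, for any fixed `D`, the sets `E ⊂ Ω ⊂ ℝⁿ` which are centrally
symmetric, which contain exactly one half of `Ω ∩ A` for all sets `A` which depend on at most `D`
coordinates (in particular `E` and `Ω \ E` have the same marginals on all `D`-dimensional coordinate
subspaces and the same moments up to the order `D`), and which are nearly uncorrelated,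
`|∫_E g - ∫_{Ω \ E} g| ≤ n^{-D} (|Ω| ∫_Ω g²)^{1/2}`, with polynomially many, `≤ B n^D`, functions
`g ∈ L²(Ω)` which may be chosen for every `Ω`.

Method. Let `σ = 1` on `E` and `σ = -1` on `Ω \ E`. In the power `Ω^N` consider for the `r`-subsets `T`,
`r = 3 D + 1`, the sets `E_T = {z : ∏_{i ∈ T} σ(z_i) = 1}`.
* The functions `σ_T = ∏_{i ∈ T} σ(z_i)` are orthogonal to all functions which do not depend on one
  of the blocks `z_i`, `i ∈ T`, and orthonormal. By Bessel's inequality some `E_T` is nearly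
  uncorrelated with the given functions (`TS1`, `TS2`, `TS4`).
* `P(E_T; Ω^N) ≤ r |Ω|^{N - 1} P(E; Ω)`, by integrating a test field over one block first (`TS3`).
* The central sections of `Ω^N` have at least the area `c |Ω|^N / s^{1/2}`, `s` the largest variance of
  a linear functional of norm one on `Ω`, and the least central section of `Ω` has at most the area
  `C |Ω| / s^{1/2}` (`TS4`).
* This gives the inequality for the symmetric sets `E` of `Ω`; then `SymmetricSets`.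
-/

set_option autoImplicit false

namespace Pool.Agent.Results.MP_dc1397_gt.PseudorandomSets

open MeasureTheory Set
open scoped ENNReal InnerProductSpace

/-- Euclidean space of dimension `n` -/
abbrev Euc (n : ℕ) : Type := EuclideanSpace ℝ (Fin n)

/-- open bounded convex set `Ω = -Ω ≠ ∅` -/
structure Domain {n : ℕ} (Ω : Set (Euc n)) : Prop where
  isOpen : IsOpen Ω
  convex : Convex ℝ Ω
  bdd : Bornology.IsBounded Ω
  symm : ∀ x ∈ Ω, -x ∈ Ω
  nonempty : Ω.Nonempty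

/-- the set `A` is centrally symmetric, `A = -A` -/
def Symmetric {n : ℕ} (A : Set (Euc n)) : Prop := ∀ x, x ∈ A ↔ -x ∈ A

/-- the Lebesgue measure of a Euclidean space -/
noncomputable def lebesgue (F : Type) [NormedAddCommGroup F] [InnerProductSpace ℝ F]
    [FiniteDimensional ℝ F] [MeasurableSpace F] [BorelSpace F] : Measure F := volume

/-- the Lebesgue measure (of the Euclidean space `W`) of the section `Ω ∩ W` by a subspace `W` -/
noncomputable def areaIn {F : Type} [NormedAddCommGroup F] [InnerProductSpace ℝ F]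
    [FiniteDimensional ℝ F] [MeasurableSpace F] [BorelSpace F] (W : Submodule ℝ F) (Ω : Set F) :
    ℝ≥0∞ := lebesgue W {y : W | (y : F) ∈ Ω}

section defs

variable {κ : Type} [Fintype κ]

open Classical in
/-- divergence of a vector field on `ℝ^κ` -/
noncomputable def divergence (X : EuclideanSpace ℝ κ → EuclideanSpace ℝ κ)
    (x : EuclideanSpace ℝ κ) : ℝ :=
  ∑ i, fderiv ℝ X x (EuclideanSpace.single i 1) i

/-- `C¹` vector fields with compact support in `Ω` and `‖X‖ ≤ 1` -/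
structure Test (Ω : Set (EuclideanSpace ℝ κ)) (X : EuclideanSpace ℝ κ → EuclideanSpace ℝ κ) :
    Prop where
  diff : ContDiff ℝ 1 X
  comp : HasCompactSupport X
  sub : tsupport X ⊆ Ω
  le : ∀ x, ‖X x‖ ≤ 1

/-- the (De Giorgi) perimeter `P(E; Ω)` of `E` relative to the open set `Ω` -/
noncomputable def perimeter (E Ω : Set (EuclideanSpace ℝ κ)) : ℝ≥0∞ :=
  ⨆ (X : EuclideanSpace ℝ κ → EuclideanSpace ℝ κ) (_ : Test Ω X),
    ENNReal.ofReal (∫ x in E, divergence X x)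

/-- the area (Lebesgue measure in the hyperplane `a^⊥`) of the central section of `Ω` by `a^⊥` -/
noncomputable def sectionArea (Ω : Set (EuclideanSpace ℝ κ)) (a : EuclideanSpace ℝ κ) : ℝ≥0∞ :=
  areaIn (Submodule.span ℝ {a})ᗮ Ω

/-- the perimeter is the one used in the proof -/
theorem perimeter_eq (E Ω : Set (EuclideanSpace ℝ κ)) :
    Pool.Agent.W695.KH.per E Ω = perimeter E Ω := by
  unfold perimeter Pool.Agent.W695.KH.per
  refine iSup_congr fun X => ?_
  refine iSup_congr_Prop ⟨fun h => ⟨h.1, h.2.1, h.2.2.1, h.2.2.2⟩,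
    fun h => ⟨h.diff, h.comp, h.sub, h.le⟩⟩ fun _ => rfl

end defs

/-- **Q1 for the domain `Ω` with the constant `C`**: `inf_{a ≠ 0} H_{n-1}(Ω ∩ a^⊥) ≤ C P(E; Ω)` for all
measurable `E ⊆ Ω` with `|E| = |Ω| / 2` -/
def HyperplaneInequality {n : ℕ} (C : ℝ) (Ω : Set (Euc n)) : Prop :=
  ∀ E : Set (Euc n), MeasurableSet E → E ⊆ Ω → volume E = volume Ω / 2 →
    ⨅ (a : Euc n) (_ : a ≠ 0), sectionArea Ω a ≤ ENNReal.ofReal C * perimeter E Ω

/-- **Q1 for the domain `Ω` and symmetric sets, with the constant `C`**: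
`inf_{a ≠ 0} H_{n-1}(Ω ∩ a^⊥) ≤ C P(E; Ω)` for all measurable `E = -E ⊆ Ω` with `|E| = |Ω| / 2` -/
def SymmetricHyperplaneInequality {n : ℕ} (C : ℝ) (Ω : Set (Euc n)) : Prop :=
  ∀ E : Set (Euc n), MeasurableSet E → E ⊆ Ω → Symmetric E → volume E = volume Ω / 2 →
    ⨅ (a : Euc n) (_ : a ≠ 0), sectionArea Ω a ≤ ENNReal.ofReal C * perimeter E Ω

/-- the part of the centred ellipsoid `xᵀ Q x ≤ 1` in the cube `[-1, 1]ⁿ` -/
def EllipsoidInCube {n : ℕ} (Q : Matrix (Fin n) (Fin n) ℝ) : Set (Euc n) :=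
  {x | (∀ i, |x i| ≤ 1) ∧ ∑ i, ∑ j, Q i j * x i * x j ≤ 1}

/-- the power `Ω^N ⊂ (ℝⁿ)^N = ℝ^{N n}` of a set `Ω ⊂ ℝⁿ` -/
def power {n : ℕ} (N : ℕ) (Ω : Set (Euc n)) : Set (Euc (N * n)) :=
  {z | ∀ i : Fin N, (WithLp.toLp 2 fun k : Fin n => z (finProdFinEquiv (i, k)) : Euc n) ∈ Ω}

/-- whether `x` belongs to `A` depends on the coordinates `x_i`, `i ∈ S`, only -/
def DependsOn {n : ℕ} (S : Finset (Fin n)) (A : Set (Euc n)) : Prop :=
  ∀ x y : Euc n, (∀ i ∈ S, x i = y i) → (x ∈ A ↔ y ∈ A)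

/-- The set `E ⊆ Ω` is pseudorandom of the order `D` with respect to the functions `g_j`: it is
measurable and centrally symmetric; it contains exactly one half of `Ω ∩ A` for all measurable
sets `A` which depend on at most `D` coordinates; and
`|∫_E g_j - ∫_{Ω \ E} g_j| ≤ n^{-D} (|Ω| ∫_Ω g_j²)^{1/2}` for all `j`. -/
structure Pseudorandom {n k : ℕ} (D : ℕ) (g : Fin k → Euc n → ℝ) (E Ω : Set (Euc n)) : Prop where
  meas : MeasurableSet E
  sub : E ⊆ Ω
  symm : Symmetric E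
  balanced : ∀ S : Finset (Fin n), S.card ≤ D → ∀ A : Set (Euc n), MeasurableSet A →
    DependsOn S A → volume (E ∩ A) = volume (Ω ∩ A) / 2
  corr : ∀ j, |(∫ x in E, g j x) - (∫ x in Ω \ E, g j x)| ≤
    Real.sqrt ((volume Ω).toReal * (∫ x in Ω, g j x ^ 2)) / (n : ℝ) ^ D

/-- **Q1 for `Ω ⊂ ℝⁿ` and pseudorandom sets, with the constant `C`**: there are at most `B n^D` functions
`g_j ∈ L²(Ω)` such that `inf_{a ≠ 0} H_{n-1}(Ω ∩ a^⊥) ≤ C P(E; Ω)` for all sets `E ⊆ Ω` which are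
pseudorandom of the order `D` with respect to the `g_j` (these sets have the volume `|Ω| / 2`) -/
def PseudorandomHyperplaneInequality {n : ℕ} (D B : ℕ) (C : ℝ) (Ω : Set (Euc n)) : Prop :=
  ∃ (k : ℕ) (g : Fin k → Euc n → ℝ), k ≤ B * n ^ D ∧
    (∀ j, MemLp (g j) 2 (volume.restrict Ω)) ∧
    ∀ E : Set (Euc n), Pseudorandom D g E Ω →
      ⨅ (a : Euc n) (_ : a ≠ 0), sectionArea Ω a ≤ ENNReal.ofReal C * perimeter E Ω

theorem hbs_iff {n : ℕ} {C : ℝ} {Ω : Set (Euc n)} :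
    SymmetricHyperplaneInequality C Ω ↔ Pool.Agent.H776.HBs C Ω :=
  ⟨fun h E h1 h2 h3 h4 => by
    rw [perimeter_eq]
    exact h E h1 h2 (fun x => ⟨h3 x, fun hx => by have := h3 _ hx; rwa [neg_neg] at this⟩) h4,
    fun h E h1 h2 h3 h4 => by
    rw [← perimeter_eq]
    exact h E h1 h2 (fun x => (h3 x).1) h4⟩

theorem hb_iff {n : ℕ} {C : ℝ} {Ω : Set (Euc n)} :
    HyperplaneInequality C Ω ↔ Pool.Agent.H776.HB C Ω :=
  ⟨fun h E h1 h2 h3 => by rw [perimeter_eq]; exact h E h1 h2 h3,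
    fun h E h1 h2 h3 => by rw [← perimeter_eq]; exact h E h1 h2 h3⟩

theorem ec_eq {n : ℕ} {F : Type} [Fintype F] {A : Euc n →ₗ[ℝ] EuclideanSpace ℝ F}
    {Q : Matrix (Fin n) (Fin n) ℝ} (h : ∀ x : Euc n, ‖A x‖ ^ 2 = ∑ i, ∑ j, Q i j * x i * x j) :
    Pool.Agent.H776.EC A = EllipsoidInCube Q := by
  ext x
  unfold Pool.Agent.H776.EC EllipsoidInCube
  rw [mem_ofPred_eq, mem_ofPred_eq, h]

theorem zero_mem {n : ℕ} {Ω : Set (Euc n)} (h : Domain Ω) : (0 : Euc n) ∈ Ω := by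
  obtain ⟨x, hx⟩ := h.nonempty
  have h1 := h.convex hx (h.symm x hx) (by norm_num : (0 : ℝ) ≤ 1 / 2)
    (by norm_num : (0 : ℝ) ≤ 1 / 2) (by norm_num)
  rwa [smul_neg, add_neg_cancel] at h1

theorem domain_interior {n : ℕ} {Q : Matrix (Fin n) (Fin n) ℝ} (hQ : Q.PosDef) :
    Domain (interior (EllipsoidInCube Q)) := by
  obtain ⟨A, hA, hx⟩ := Pool.Agent.H776.exists_map hQ
  rw [← ec_eq hx]
  have hs : ∀ x ∈ Pool.Agent.H776.EC A, -x ∈ Pool.Agent.H776.EC A := by
    rintro x ⟨h1, h2⟩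
    refine ⟨fun i => ?_, ?_⟩
    · rw [PiLp.neg_apply, abs_neg]
      exact h1 i
    · rw [map_neg, norm_neg]
      exact h2
  refine ⟨isOpen_interior, (Pool.Agent.H776.EC_convex A).interior,
    (Pool.Agent.H776.EC_compact A).isBounded.subset interior_subset, ?_,
    ⟨0, Pool.Agent.H776.EC_interior A⟩⟩
  intro x hx
  have hop : IsOpen ((fun y => -y) ⁻¹' interior (Pool.Agent.H776.EC A)) :=
    isOpen_interior.preimage continuous_neg
  have hsub : (fun y => -y) ⁻¹' interior (Pool.Agent.H776.EC A) ⊆ Pool.Agent.H776.EC A := by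
    intro y hy
    have := hs _ (interior_subset hy)
    rwa [neg_neg] at this
  exact interior_maximal hsub hop (by simpa using hx)

theorem body_closure {n : ℕ} {Ω : Set (Euc n)} (h : Domain Ω) :
    Pool.Agent.H776.Body (closure Ω) ∧ ∀ x ∈ closure Ω, -x ∈ closure Ω := by
  refine ⟨Pool.Agent.H776.body_closure h.isOpen h.convex h.bdd (zero_mem h), fun x hx => ?_⟩
  have h1 : closure Ω ⊆ (fun y : Euc n => -y) ⁻¹' closure Ω := by
    refine closure_minimal (fun y hy => subset_closure (h.symm y hy)) ?_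
    exact isClosed_closure.preimage continuous_neg
  exact h1 hx

theorem power_eq {n : ℕ} (N : ℕ) (Ω : Set (Euc n)) :
    Pool.Agent.H776.TS.pw (finProdFinEquiv : Fin N × Fin n ≃ Fin (N * n)) Ω = power N Ω := rfl

theorem domain_power {n : ℕ} (N : ℕ) {Ω : Set (Euc n)} (h : Domain Ω) : Domain (power N Ω) :=
  ⟨Pool.Agent.H776.TS.pw_open finProdFinEquiv h.isOpen,
    Pool.Agent.H776.TS.pw_convex finProdFinEquiv h.convex,
    Pool.Agent.H776.TS.pw_bdd finProdFinEquiv h.bdd,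
    Pool.Agent.H776.TS.pw_neg finProdFinEquiv h.symm,
    ⟨0, Pool.Agent.H776.TS.pw_zero finProdFinEquiv (zero_mem h)⟩⟩

/-- **body by body** -/
theorem exists_body : ∃ c : ℝ, 0 < c ∧ ∀ (D B : ℕ) (C : ℝ), 0 < C → ∀ (n : ℕ), 1 ≤ n →
    ∀ Ω : Set (Euc n), Domain Ω →
    (∀ N₀ : ℕ, ∃ N, N₀ ≤ N ∧ PseudorandomHyperplaneInequality D B C (power N Ω)) →
    SymmetricHyperplaneInequality (c * (D + 1) * C) Ω := by
  obtain ⟨C₂, hC₂, H⟩ := Pool.Agent.H776.TS.body_of_pw
  refine ⟨C₂ * 3, by positivity, fun D B C hC n hn Ω hΩ h => ?_⟩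
  have hne : Nonempty (Fin n) := ⟨⟨0, hn⟩⟩
  intro E hE hEΩ hEs hv
  obtain ⟨N₀, hN₀⟩ := Pool.Agent.H776.TS.count D B n
  obtain ⟨N, hN, k, g, hk, hg, hI⟩ := h (N₀ + 1)
  have hN1 : 1 ≤ N := by omega
  have h0 := zero_mem hΩ
  have hΩt : volume Ω ≠ ⊤ := hΩ.bdd.measure_lt_top.ne
  have hΩ0 : volume Ω ≠ 0 := (hΩ.isOpen.measure_pos volume hΩ.nonempty).ne'
  have hm := hΩ.isOpen.measurableSet
  have hprob : IsProbabilityMeasure (Pool.Agent.H776.unf Ω) := by
    refine ⟨?_⟩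
    unfold Pool.Agent.H776.unf
    rw [Measure.smul_apply, smul_eq_mul, Measure.restrict_apply_univ, ENNReal.inv_mul_cancel hΩ0 hΩt]
  have hpos : (0 : ℝ) < ((N * n : ℕ) : ℝ) ^ D := by positivity
  obtain ⟨T, hT, hTc⟩ := Pool.Agent.H776.TS.exists_T
    (finProdFinEquiv : Fin N × Fin n ≃ Fin (N * n)) hm hE hEΩ hv hΩ0 hΩt (r := 3 * D + 1)
    (g := g) hg (ε := (((N * n : ℕ) : ℝ) ^ D)⁻¹) (by positivity) (by
      have h1 : B * (N * n) ^ (3 * D) < N.choose (3 * D + 1) := hN₀ N (by omega)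
      have h2 : k * ((N * n) ^ D) ^ 2 < N.choose (3 * D + 1) := by
        refine lt_of_le_of_lt ?_ h1
        calc k * ((N * n) ^ D) ^ 2 ≤ (B * (N * n) ^ D) * ((N * n) ^ D) ^ 2 :=
              Nat.mul_le_mul_right _ hk
          _ = B * (N * n) ^ (3 * D) := by ring
      rw [Fintype.card_fin, inv_pow, ← div_eq_mul_inv, lt_div_iff₀ (by positivity)]
      exact_mod_cast h2)
  have hTn : T.Nonempty := by
    rw [← Finset.card_pos, hT]
    omega
  have hEs' : ∀ x ∈ E, -x ∈ E := fun x hx => (hEs x).1 hx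
  have hxs := Pool.Agent.H776.TS.xe_symm (finProdFinEquiv : Fin N × Fin n ≃ Fin (N * n))
    hΩ.symm hEs' T
  have key := hI (Pool.Agent.H776.TS.xe (finProdFinEquiv : Fin N × Fin n ≃ Fin (N * n)) Ω E T)
    { meas := Pool.Agent.H776.TS.xe_meas _ hm hE T
      sub := Pool.Agent.H776.TS.xe_sub _ Ω E T
      symm := fun x => ⟨hxs x, fun hx => by
        have := hxs _ hx
        rwa [neg_neg] at this⟩
      balanced := fun S hS A hA hAS => by
        obtain ⟨i, hi, hiA⟩ := Pool.Agent.H776.TS.exists_block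
          (finProdFinEquiv : Fin N × Fin n ≃ Fin (N * n)) (T := T) (S := S) (by omega) hAS
        exact Pool.Agent.H776.TS.xe_half _ hm hE hEΩ hv hΩ0 hΩt hi hA hiA
      corr := fun j => by
        have h1 := hTc j
        rw [div_eq_inv_mul]
        exact h1 }
  have h2 := H (Fin N) (Fin n) (Fin (N * n)) finProdFinEquiv Ω hΩ.isOpen hΩ.convex hΩ.bdd h0
    hΩ.symm E hE hEΩ T hTn C hC (by
      rw [perimeter_eq]
      exact key)
  rw [perimeter_eq] at h2
  refine h2.trans (mul_le_mul_left (ENNReal.ofReal_le_ofReal ?_) _)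
  rw [hT]
  push_cast
  have : 0 ≤ C₂ * C := by positivity
  nlinarith

/-- from powers of ellipsoids in cubes -/
theorem exists_of_powers : ∃ c : ℝ, 0 < c ∧ ∀ (D B : ℕ) (C : ℝ), 0 < C →
    (∀ (n : ℕ), 1 ≤ n → ∀ Q : Matrix (Fin n) (Fin n) ℝ, Q.PosDef → ∀ N₀ : ℕ, ∃ N, N₀ ≤ N ∧
      PseudorandomHyperplaneInequality D B C (power N (interior (EllipsoidInCube Q)))) →
    ∀ (n : ℕ), 1 ≤ n → ∀ Ω : Set (Euc n), Domain Ω →
      HyperplaneInequality (c * (D + 1) * (C + 1)) Ω := by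
  obtain ⟨c, hc, H⟩ := exists_body
  obtain ⟨C₁, hC₁, H₁⟩ := Pool.Agent.H776.hb_of_kp
  refine ⟨C₁ * 16 * (c + 1), by positivity, fun D B C hC h n hn Ω hΩ => ?_⟩
  have hne : Nonempty (Fin n) := ⟨⟨0, hn⟩⟩
  obtain ⟨h1, h2⟩ := body_closure hΩ
  have hC' : 0 < c * (D + 1) * C := by positivity
  have hkp := Pool.Agent.H776.kp_of_hbs hC' (fun m hm F' _ A hA => by
    obtain ⟨Q, hQ, -, hQx⟩ := Pool.Agent.H776.exists_matrix A hA
    rw [ec_eq hQx]
    exact hbs_iff.1 (H D B C hC m hm _ (domain_interior hQ) (h m hm Q hQ))) h1 h2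
  have h3 := H₁ (Fin n) Ω hΩ.isOpen hΩ.convex hΩ.bdd (zero_mem hΩ) hΩ.symm _ (by positivity) hkp
  refine hb_iff.2 fun E hE hEΩ hv => (h3 E hE hEΩ hv).trans ?_
  refine mul_le_mul_left ?_ _
  refine ENNReal.ofReal_le_ofReal ?_
  have h4 : Real.sqrt (256 * (c * (D + 1) * C) ^ 2 + 2) ≤ 16 * (c * (D + 1) * C + 1) := by
    refine Real.sqrt_le_iff.2 ⟨by positivity, ?_⟩
    nlinarith
  have h5 : c * (D + 1) * C + 1 ≤ (c + 1) * (D + 1) * (C + 1) := by
    have h6 : (0 : ℝ) ≤ D := Nat.cast_nonneg D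
    have h7 : 0 ≤ c * ((D : ℝ) + 1) := by positivity
    have h8 : 0 ≤ (D : ℝ) * C := by positivity
    nlinarith
  calc C₁ * Real.sqrt (256 * (c * (D + 1) * C) ^ 2 + 2)
      ≤ C₁ * (16 * (c * (D + 1) * C + 1)) := mul_le_mul_of_nonneg_left h4 hC₁.le
    _ ≤ C₁ * (16 * ((c + 1) * (D + 1) * (C + 1))) := by gcongr
    _ = C₁ * 16 * (c + 1) * (D + 1) * (C + 1) := by ring

/-- **For the hyperplane conjecture (Q1) one needs pseudorandom sets only.** Fix the order `D` and `B`.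
(1) Body by body: if for arbitrarily large `N` there are at most `B (N n)^D` functions in `L²(Ω^N)` such
that Q1 holds with the constant `C` for `Ω^N` and the sets which are pseudorandom of the order `D` with
respect to these functions, then Q1 holds for `Ω` and all symmetric sets `E = -E ⊆ Ω`, `|E| = |Ω| / 2`,
with the constant `c (D + 1) C`, `c` absolute.
(2) If this holds for the interiors `Ω` of the bodies `{x ∈ [-1, 1]ⁿ : xᵀ Q x ≤ 1}`, `Q` positive
definite, then Q1 holds for all domains and all sets with the constant `c (D + 1) (C + 1)`.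
(3) So Q1 is equivalent to: for some `C`, for every domain `Ω ⊂ ℝⁿ` there are at most `B n^D` functions
in `L²(Ω)` such that Q1 holds, with the constant `C`, for the sets which are pseudorandom of the order
`D` with respect to these functions. -/
theorem result :
    (∃ c : ℝ, 0 < c ∧ ∀ (D B : ℕ) (C : ℝ), 0 < C → ∀ (n : ℕ), 1 ≤ n →
      ∀ Ω : Set (Euc n), Domain Ω →
      (∀ N₀ : ℕ, ∃ N, N₀ ≤ N ∧ PseudorandomHyperplaneInequality D B C (power N Ω)) →
      SymmetricHyperplaneInequality (c * (D + 1) * C) Ω) ∧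
    (∃ c : ℝ, 0 < c ∧ ∀ (D B : ℕ) (C : ℝ), 0 < C →
      (∀ (n : ℕ), 1 ≤ n → ∀ Q : Matrix (Fin n) (Fin n) ℝ, Q.PosDef → ∀ N₀ : ℕ, ∃ N, N₀ ≤ N ∧
        PseudorandomHyperplaneInequality D B C (power N (interior (EllipsoidInCube Q)))) →
      ∀ (n : ℕ), 1 ≤ n → ∀ Ω : Set (Euc n), Domain Ω →
        HyperplaneInequality (c * (D + 1) * (C + 1)) Ω) ∧
    ∀ D B : ℕ, (∃ C : ℝ, 0 < C ∧ ∀ (n : ℕ), 1 ≤ n → ∀ Ω : Set (Euc n), Domain Ω →
        HyperplaneInequality C Ω) ↔
      ∃ C : ℝ, 0 < C ∧ ∀ (n : ℕ), 1 ≤ n → ∀ Ω : Set (Euc n), Domain Ω →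
        PseudorandomHyperplaneInequality D B C Ω := by
  obtain ⟨c, hc, H⟩ := exists_of_powers
  refine ⟨exists_body, ⟨c, hc, H⟩, fun D B => ⟨?_, ?_⟩⟩
  · rintro ⟨C, hC, h⟩
    refine ⟨C, hC, fun n hn Ω hΩ => ⟨0, fun j => j.elim0, Nat.zero_le _, fun j => j.elim0,
      fun E hE => h n hn Ω hΩ E hE.meas hE.sub ?_⟩⟩
    have h1 := hE.balanced ∅ (Nat.zero_le _) univ MeasurableSet.univ (fun _ _ _ => by simp)
    rwa [inter_univ, inter_univ] at h1
  · rintro ⟨C, hC, h⟩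
    refine ⟨c * (D + 1) * (C + 1), by positivity, H D B C hC fun n hn Q hQ N₀ =>
      ⟨N₀ + 1, by omega, h _ (Nat.mul_pos (by omega) hn) _ (domain_power _ (domain_interior hQ))⟩⟩

end Pool.Agent.Results.MP_dc1397_gt.PseudorandomSets
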