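import Pool.Agent.H776.EV6
import Pool.Agent.H776.EV7

/-!
# The hyperplane conjecture for symmetric bodies is equivalent to its case of symmetric sets

In Q1 it suffices to consider the sets `E = -E` (of half the volume), for which the comparison with
central hyperplanes is least natural: with absolute constants, in every symmetric convex domain the
cheapest cut is a central hyperplane or a centrally symmetric set.

Method.
1. For even log-concave measures, `C_P ≤ 2 (C_even + ‖Cov‖)`, where `C_even` is the Poincare constant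
  of even functions. For odd `u` and the Gaussian channel and back, `P` (`P = T* T`, `T` the
  posterior mean), the partial derivatives of `v = P u` are even; the Dirichlet form satisfies
  `E(v) + h ∫ ‖D² v‖² ≤ E(u)` (library), the means of the gradient satisfy
  `h ∫ ∇ v = ∫ (u - v) x`, and `‖u - P u‖² ≤ D(u) - D(P u)` for `D(u) = ⟨u - P u, u⟩ ≤ h E(u)`. So
  `h E(v) + Ψ(v) ≤ Ψ(u)` with `Ψ = C_even E + (‖Cov‖ / h) D`, and the claim follows by iteration
  (`EV1`, `EV2`, `EV3`).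
2. Coarea and Cheeger for even functions: only symmetric sets occur (`EV4`). The covariance is
  bounded by the central sections. From the Poincare inequality back to the perimeters of all sets
  (Ledoux, mollification) (`EV5`).
3. For Q1 one needs the symmetric sets of half the volume only: limits and products of ellipsoids in
  cubes, as in `EllipsoidsInCubes`; all sets which occur there are symmetric (`EV6`).
-/

set_option autoImplicit false

namespace Pool.Agent.Results.MP_dc1397_gt.SymmetricSets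

open MeasureTheory Set
open scoped ENNReal InnerProductSpace

/-- Euclidean space of dimension `n` -/
abbrev Euc (n : ℕ) : Type := EuclideanSpace ℝ (Fin n)

/-- open bounded convex set `Ω = -Ω ≠ ∅` -/
structure Domain {n : ℕ} (Ω : Set (Euc n)) : Prop where
  isOpen : IsOpen Ω
  convex : Convex ℝ Ω
  bdd : Bornology.IsBounded Ω
  symm : ∀ x ∈ Ω, -x ∈ Ω
  nonempty : Ω.Nonempty

/-- the set `A` is centrally symmetric, `A = -A` -/
def Symmetric {n : ℕ} (A : Set (Euc n)) : Prop := ∀ x, x ∈ A ↔ -x ∈ A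

/-- the Lebesgue measure of a Euclidean space -/
noncomputable def lebesgue (F : Type) [NormedAddCommGroup F] [InnerProductSpace ℝ F]
    [FiniteDimensional ℝ F] [MeasurableSpace F] [BorelSpace F] : Measure F := volume

/-- the Lebesgue measure (of the Euclidean space `W`) of the section `Ω ∩ W` by a subspace `W` -/
noncomputable def areaIn {F : Type} [NormedAddCommGroup F] [InnerProductSpace ℝ F]
    [FiniteDimensional ℝ F] [MeasurableSpace F] [BorelSpace F] (W : Submodule ℝ F) (Ω : Set F) :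
    ℝ≥0∞ := lebesgue W {y : W | (y : F) ∈ Ω}

section defs

variable {κ : Type} [Fintype κ]

open Classical in
/-- divergence of a vector field on `ℝ^κ` -/
noncomputable def divergence (X : EuclideanSpace ℝ κ → EuclideanSpace ℝ κ)
    (x : EuclideanSpace ℝ κ) : ℝ :=
  ∑ i, fderiv ℝ X x (EuclideanSpace.single i 1) i

/-- `C¹` vector fields with compact support in `Ω` and `‖X‖ ≤ 1` -/
structure Test (Ω : Set (EuclideanSpace ℝ κ)) (X : EuclideanSpace ℝ κ → EuclideanSpace ℝ κ) :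
    Prop where
  diff : ContDiff ℝ 1 X
  comp : HasCompactSupport X
  sub : tsupport X ⊆ Ω
  le : ∀ x, ‖X x‖ ≤ 1

/-- the (De Giorgi) perimeter `P(E; Ω)` of `E` relative to the open set `Ω` -/
noncomputable def perimeter (E Ω : Set (EuclideanSpace ℝ κ)) : ℝ≥0∞ :=
  ⨆ (X : EuclideanSpace ℝ κ → EuclideanSpace ℝ κ) (_ : Test Ω X),
    ENNReal.ofReal (∫ x in E, divergence X x)

/-- the area (Lebesgue measure in the hyperplane `a^⊥`) of the central section of `Ω` by `a^⊥` -/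
noncomputable def sectionArea (Ω : Set (EuclideanSpace ℝ κ)) (a : EuclideanSpace ℝ κ) : ℝ≥0∞ :=
  areaIn (Submodule.span ℝ {a})ᗮ Ω

/-- the perimeter is the one used in the proof -/
theorem perimeter_eq (E Ω : Set (EuclideanSpace ℝ κ)) :
    Pool.Agent.W695.KH.per E Ω = perimeter E Ω := by
  unfold perimeter Pool.Agent.W695.KH.per
  refine iSup_congr fun X => ?_
  refine iSup_congr_Prop ⟨fun h => ⟨h.1, h.2.1, h.2.2.1, h.2.2.2⟩,
    fun h => ⟨h.diff, h.comp, h.sub, h.le⟩⟩ fun _ => rfl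

end defs

/-- **Q1 for the domain `Ω` with the constant `C`**: `inf_{a ≠ 0} H_{n-1}(Ω ∩ a^⊥) ≤ C P(E; Ω)` for all
measurable `E ⊆ Ω` with `|E| = |Ω| / 2` -/
def HyperplaneInequality {n : ℕ} (C : ℝ) (Ω : Set (Euc n)) : Prop :=
  ∀ E : Set (Euc n), MeasurableSet E → E ⊆ Ω → volume E = volume Ω / 2 →
    ⨅ (a : Euc n) (_ : a ≠ 0), sectionArea Ω a ≤ ENNReal.ofReal C * perimeter E Ω

/-- **Q1 for the domain `Ω` and symmetric sets, with the constant `C`**:
`inf_{a ≠ 0} H_{n-1}(Ω ∩ a^⊥) ≤ C P(E; Ω)` for all measurable `E = -E ⊆ Ω` with `|E| = |Ω| / 2` -/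
def SymmetricHyperplaneInequality {n : ℕ} (C : ℝ) (Ω : Set (Euc n)) : Prop :=
  ∀ E : Set (Euc n), MeasurableSet E → E ⊆ Ω → Symmetric E → volume E = volume Ω / 2 →
    ⨅ (a : Euc n) (_ : a ≠ 0), sectionArea Ω a ≤ ENNReal.ofReal C * perimeter E Ω

/-- the Cheeger constant of `Ω`: the infimum of `P(E; Ω) / min(|E|, |Ω \ E|)` over all measurable
`E ⊆ Ω` with `|E|, |Ω \ E| > 0` -/
noncomputable def cheeger {n : ℕ} (Ω : Set (Euc n)) : ℝ≥0∞ :=
  ⨅ (E : Set (Euc n)) (_ : MeasurableSet E ∧ E ⊆ Ω ∧ 0 < volume E ∧ 0 < volume (Ω \ E)),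
    perimeter E Ω / min (volume E) (volume (Ω \ E))

/-- the same infimum over the centrally symmetric sets `E = -E` -/
noncomputable def symmetricCheeger {n : ℕ} (Ω : Set (Euc n)) : ℝ≥0∞ :=
  ⨅ (E : Set (Euc n)) (_ : MeasurableSet E ∧ E ⊆ Ω ∧ 0 < volume E ∧ 0 < volume (Ω \ E) ∧
    Symmetric E), perimeter E Ω / min (volume E) (volume (Ω \ E))

/-- the infimum over the cuts by central hyperplanes, `inf_{a ≠ 0} H_{n-1}(Ω ∩ a^⊥) / (|Ω| / 2)` -/
noncomputable def hyperplaneCheeger {n : ℕ} (Ω : Set (Euc n)) : ℝ≥0∞ :=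
  ⨅ (a : Euc n) (_ : a ≠ 0), sectionArea Ω a / (volume Ω / 2)

/-- the part of the centred ellipsoid `xᵀ Q x ≤ 1` in the cube `[-1, 1]ⁿ` -/
def EllipsoidInCube {n : ℕ} (Q : Matrix (Fin n) (Fin n) ℝ) : Set (Euc n) :=
  {x | (∀ i, |x i| ≤ 1) ∧ ∑ i, ∑ j, Q i j * x i * x j ≤ 1}

/-- `Var f ≤ D ∫ ‖∇ f‖² dμ` -/
def PoincareFor {n : ℕ} (μ : Measure (Euc n)) (D : ℝ) (f : Euc n → ℝ) : Prop :=
  ∫ x, (f x - ∫ y, f y ∂μ) ^ 2 ∂μ ≤ D * ∫ x, ‖fderiv ℝ f x‖ ^ 2 ∂μ

theorem hbs_iff {n : ℕ} {C : ℝ} {Ω : Set (Euc n)} :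
    SymmetricHyperplaneInequality C Ω ↔ Pool.Agent.H776.HBs C Ω :=
  ⟨fun h E h1 h2 h3 h4 => by
    rw [perimeter_eq]
    exact h E h1 h2 (fun x => ⟨h3 x, fun hx => by have := h3 _ hx; rwa [neg_neg] at this⟩) h4,
    fun h E h1 h2 h3 h4 => by
    rw [← perimeter_eq]
    exact h E h1 h2 (fun x => (h3 x).1) h4⟩

theorem hb_iff {n : ℕ} {C : ℝ} {Ω : Set (Euc n)} :
    HyperplaneInequality C Ω ↔ Pool.Agent.H776.HB C Ω :=
  ⟨fun h E h1 h2 h3 => by rw [perimeter_eq]; exact h E h1 h2 h3,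
    fun h E h1 h2 h3 => by rw [← perimeter_eq]; exact h E h1 h2 h3⟩

theorem ec_eq {n : ℕ} {F : Type} [Fintype F] {A : Euc n →ₗ[ℝ] EuclideanSpace ℝ F}
    {Q : Matrix (Fin n) (Fin n) ℝ} (h : ∀ x : Euc n, ‖A x‖ ^ 2 = ∑ i, ∑ j, Q i j * x i * x j) :
    Pool.Agent.H776.EC A = EllipsoidInCube Q := by
  ext x
  unfold Pool.Agent.H776.EC EllipsoidInCube
  rw [mem_ofPred_eq, mem_ofPred_eq, h]

theorem zero_mem {n : ℕ} {Ω : Set (Euc n)} (h : Domain Ω) : (0 : Euc n) ∈ Ω := by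
  obtain ⟨x, hx⟩ := h.nonempty
  have h1 := h.convex hx (h.symm x hx) (by norm_num : (0 : ℝ) ≤ 1 / 2)
    (by norm_num : (0 : ℝ) ≤ 1 / 2) (by norm_num)
  rwa [smul_neg, add_neg_cancel] at h1

theorem domain_interior {n : ℕ} {Q : Matrix (Fin n) (Fin n) ℝ} (hQ : Q.PosDef) :
    Domain (interior (EllipsoidInCube Q)) := by
  obtain ⟨A, hA, hx⟩ := Pool.Agent.H776.exists_map hQ
  rw [← ec_eq hx]
  have hs : ∀ x ∈ Pool.Agent.H776.EC A, -x ∈ Pool.Agent.H776.EC A := by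
    rintro x ⟨h1, h2⟩
    refine ⟨fun i => ?_, ?_⟩
    · rw [PiLp.neg_apply, abs_neg]
      exact h1 i
    · rw [map_neg, norm_neg]
      exact h2
  refine ⟨isOpen_interior, (Pool.Agent.H776.EC_convex A).interior,
    (Pool.Agent.H776.EC_compact A).isBounded.subset interior_subset, ?_,
    ⟨0, Pool.Agent.H776.EC_interior A⟩⟩
  intro x hx
  have hop : IsOpen ((fun y => -y) ⁻¹' interior (Pool.Agent.H776.EC A)) :=
    isOpen_interior.preimage continuous_neg
  have hsub : (fun y => -y) ⁻¹' interior (Pool.Agent.H776.EC A) ⊆ Pool.Agent.H776.EC A := by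
    intro y hy
    have := hs _ (interior_subset hy)
    rwa [neg_neg] at this
  exact interior_maximal hsub hop (by simpa using hx)

theorem body_closure {n : ℕ} {Ω : Set (Euc n)} (h : Domain Ω) :
    Pool.Agent.H776.Body (closure Ω) ∧ ∀ x ∈ closure Ω, -x ∈ closure Ω := by
  refine ⟨Pool.Agent.H776.body_closure h.isOpen h.convex h.bdd (zero_mem h), fun x hx => ?_⟩
  have h1 : closure Ω ⊆ (fun y : Euc n => -y) ⁻¹' closure Ω := by
    refine closure_minimal (fun y hy => subset_closure (h.symm y hy)) ?_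
    exact isClosed_closure.preimage continuous_neg
  exact h1 hx

/-- from Q1 for symmetric sets in ellipsoids in cubes -/
theorem exists_of_ellipsoids : ∃ c₁ : ℝ, 0 < c₁ ∧ ∀ C : ℝ, 0 < C →
    (∀ (n : ℕ), 1 ≤ n → ∀ Q : Matrix (Fin n) (Fin n) ℝ, Q.PosDef →
      SymmetricHyperplaneInequality C (interior (EllipsoidInCube Q))) →
    ∀ (n : ℕ), 1 ≤ n → ∀ Ω : Set (Euc n), Domain Ω → HyperplaneInequality (c₁ * (C + 1)) Ω := by
  obtain ⟨C₁, hC₁, H⟩ := Pool.Agent.H776.hb_of_kp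
  refine ⟨C₁ * 16, by positivity, fun C hC h n hn Ω hΩ => ?_⟩
  have hne : Nonempty (Fin n) := ⟨⟨0, hn⟩⟩
  obtain ⟨h1, h2⟩ := body_closure hΩ
  have hkp := Pool.Agent.H776.kp_of_hbs hC (fun m hm F' _ A hA => by
    obtain ⟨Q, hQ, -, hQx⟩ := Pool.Agent.H776.exists_matrix A hA
    rw [ec_eq hQx]
    exact hbs_iff.1 (h m hm Q hQ)) h1 h2
  have h3 := H (Fin n) Ω hΩ.isOpen hΩ.convex hΩ.bdd (zero_mem hΩ) hΩ.symm _ (by positivity) hkp
  refine hb_iff.2 fun E hE hEΩ hv => (h3 E hE hEΩ hv).trans ?_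
  refine mul_le_mul_left ?_ _
  refine ENNReal.ofReal_le_ofReal ?_
  rw [mul_assoc]
  refine mul_le_mul_of_nonneg_left ?_ hC₁.le
  refine Real.sqrt_le_iff.2 ⟨by positivity, ?_⟩
  nlinarith

/-- the body by body form -/
theorem exists_body : ∃ c : ℝ, 0 < c ∧ ∀ (n : ℕ) (Ω : Set (Euc n)), Domain Ω → ∀ t : ℝ, 0 < t →
    (∀ a : Euc n, a ≠ 0 → ENNReal.ofReal t * volume Ω ≤ sectionArea Ω a) →
    (∀ A : Set (Euc n), MeasurableSet A → A ⊆ Ω → Symmetric A →
      ENNReal.ofReal t * min (volume A) (volume (Ω \ A)) ≤ perimeter A Ω) →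
    ∀ E : Set (Euc n), MeasurableSet E → E ⊆ Ω →
      ENNReal.ofReal (c * t) * min (volume E) (volume (Ω \ E)) ≤ perimeter E Ω := by
  obtain ⟨c, hc, H⟩ := Pool.Agent.H776.exists_symm
  refine ⟨c, hc, fun n Ω hΩ t ht h1 h2 E hE hEΩ => ?_⟩
  rw [← perimeter_eq]
  refine H (Fin n) Ω hΩ.isOpen hΩ.convex hΩ.bdd (zero_mem hΩ) hΩ.symm t ht h1
    (fun A hA hAΩ hs => ?_) E hE hEΩ
  rw [perimeter_eq]
  exact h2 A hA hAΩ fun x => ⟨hs x, fun hx => by have := hs _ hx; rwa [neg_neg] at this⟩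

/-- Q1 for one domain from its symmetric sets of arbitrary volume -/
theorem exists_body_q1 : ∃ c : ℝ, 0 < c ∧ ∀ (n : ℕ) (Ω : Set (Euc n)), 1 ≤ n → Domain Ω →
    ∀ C : ℝ, 0 < C →
    (∀ A : Set (Euc n), MeasurableSet A → A ⊆ Ω → Symmetric A →
      (⨅ (a : Euc n) (_ : a ≠ 0), sectionArea Ω a) * min (volume A) (volume (Ω \ A)) ≤
        ENNReal.ofReal C * volume Ω * perimeter A Ω) →
    HyperplaneInequality (c * (C + 1)) Ω := by
  obtain ⟨c, hc, H⟩ := exists_body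
  refine ⟨2 / c, by positivity, fun n Ω hn hΩ C hC h E hE hEΩ hv => ?_⟩
  have hΩt : volume Ω ≠ ⊤ := hΩ.bdd.measure_lt_top.ne
  have hΩ0 : volume Ω ≠ 0 := (hΩ.isOpen.measure_pos volume hΩ.nonempty).ne'
  have hV0 : 0 < (volume Ω).toReal := ENNReal.toReal_pos hΩ0 hΩt
  obtain ⟨I, hI⟩ : ∃ I, I = ⨅ (a : Euc n) (_ : a ≠ 0), sectionArea Ω a := ⟨_, rfl⟩
  rw [← hI] at h ⊢
  obtain ⟨Cs, hCs, hs⟩ := Pool.Agent.W695.KH.sec_bound
  have hne : Nonempty (Fin n) := ⟨⟨0, hn⟩⟩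
  -- the infimum is finite
  have hIt : I ≠ ⊤ := by
    obtain ⟨i⟩ := hne
    have h1 : ‖EuclideanSpace.single i (1 : ℝ)‖ = 1 := by simp
    have h2 := (hs (Fin n) Ω hΩ.isOpen hΩ.convex hΩ.bdd (zero_mem hΩ) hΩ.symm _ h1).1
    have h3 : EuclideanSpace.single i (1 : ℝ) ≠ 0 := by
      intro h0
      rw [h0, norm_zero] at h1
      exact zero_ne_one h1
    refine ne_top_of_le_ne_top h2 ?_
    rw [hI]
    exact iInf₂_le (EuclideanSpace.single i (1 : ℝ) : Euc n) h3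
  by_cases hI0 : I = 0
  · rw [hI0]
    exact bot_le
  have hIr : 0 < I.toReal := ENNReal.toReal_pos hI0 hIt
  have hIe : I = ENNReal.ofReal I.toReal := (ENNReal.ofReal_toReal hIt).symm
  have hVe : volume Ω = ENNReal.ofReal (volume Ω).toReal := (ENNReal.ofReal_toReal hΩt).symm
  set V := (volume Ω).toReal with hV
  obtain ⟨t, ht⟩ : ∃ t, t = I.toReal / (V * (C + 1)) := ⟨_, rfl⟩
  have ht0 : 0 < t := by rw [ht]; positivity
  have htV : t * V * (C + 1) = I.toReal := by rw [ht]; field_simp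
  have key := H n Ω hΩ t ht0 (fun a ha => by
    have h1 : I ≤ sectionArea Ω a := by rw [hI]; exact iInf₂_le a ha
    refine le_trans ?_ h1
    rw [hVe, hIe, ← ENNReal.ofReal_mul ht0.le]
    refine ENNReal.ofReal_le_ofReal ?_
    rw [← htV]
    have : 0 < t * V := by positivity
    nlinarith) (fun A hA hAΩ hAs => by
    have h1 := h A hA hAΩ hAs
    have h2 : ENNReal.ofReal (C * V) ≠ 0 := (ENNReal.ofReal_pos.2 (by positivity)).ne'
    have h3 : ENNReal.ofReal C * volume Ω = ENNReal.ofReal (C * V) := by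
      rw [hVe, ← ENNReal.ofReal_mul hC.le]
    rw [h3] at h1
    have h4 : ENNReal.ofReal (C * V) * (ENNReal.ofReal t * min (volume A) (volume (Ω \ A))) ≤
        ENNReal.ofReal (C * V) * perimeter A Ω := by
      refine le_trans ?_ h1
      rw [← mul_assoc, ← ENNReal.ofReal_mul (by positivity)]
      refine mul_le_mul_left ?_ _
      rw [hIe]
      refine ENNReal.ofReal_le_ofReal ?_
      rw [← htV]
      have : 0 < t * V := by positivity
      nlinarith
    exact (ENNReal.mul_le_mul_iff_right h2 ENNReal.ofReal_ne_top).1 h4) E hE hEΩ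
  have hEt : volume E ≠ ⊤ := ne_top_of_le_ne_top hΩt (measure_mono hEΩ)
  have h5 : volume (Ω \ E) = volume Ω / 2 := by
    rw [measure_sdiff hEΩ hE.nullMeasurableSet hEt, hv]
    exact ENNReal.sub_half hΩt
  rw [h5, hv, min_self] at key
  have h6 : volume Ω / 2 = ENNReal.ofReal (V / 2) := by
    rw [hVe, ENNReal.ofReal_div_of_pos two_pos]
    simp
  rw [h6, ← ENNReal.ofReal_mul (by positivity)] at key
  calc I = ENNReal.ofReal (2 / c * (C + 1)) * ENNReal.ofReal (c * t * (V / 2)) := by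
        rw [← ENNReal.ofReal_mul (by positivity), hIe]
        congr 1
        rw [← htV]
        field_simp
    _ ≤ ENNReal.ofReal (2 / c * (C + 1)) * perimeter E Ω := mul_le_mul_right key _

/-- the upper bounds for the Cheeger constant -/
theorem cheeger_le {n : ℕ} {Ω : Set (Euc n)} (hΩ : Domain Ω) :
    cheeger Ω ≤ min (symmetricCheeger Ω) (hyperplaneCheeger Ω) := by
  refine le_min ?_ ?_
  · refine le_iInf₂ fun E hE => ?_
    exact iInf₂_le E ⟨hE.1, hE.2.1, hE.2.2.1, hE.2.2.2.1⟩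
  · refine le_iInf₂ fun a ha => ?_
    have hΩt : volume Ω ≠ ⊤ := hΩ.bdd.measure_lt_top.ne
    have hΩ0 : volume Ω ≠ 0 := (hΩ.isOpen.measure_pos volume hΩ.nonempty).ne'
    obtain ⟨E, h1, h2, h3, h4⟩ := Pool.Agent.H776.per_half hΩ.isOpen hΩ.convex hΩ.bdd (zero_mem hΩ)
      hΩ.symm ha
    have hEt : volume E ≠ ⊤ := ne_top_of_le_ne_top hΩt (measure_mono h2)
    have h5 : volume (Ω \ E) = volume Ω / 2 := by
      rw [measure_sdiff h2 h1.nullMeasurableSet hEt, h3]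
      exact ENNReal.sub_half hΩt
    have h6 : 0 < volume Ω / 2 := ENNReal.half_pos hΩ0
    have h7 : cheeger Ω ≤ perimeter E Ω / min (volume E) (volume (Ω \ E)) :=
      iInf₂_le E ⟨h1, h2, by rw [h3]; exact h6, by rw [h5]; exact h6⟩
    refine h7.trans ?_
    rw [h3, h5, min_self, ← perimeter_eq]
    exact ENNReal.div_le_div_right h4 _

/-- **the cheapest cut** -/
theorem exists_cheeger : ∃ c : ℝ, 0 < c ∧ ∀ (n : ℕ) (Ω : Set (Euc n)), 1 ≤ n → Domain Ω →
    ENNReal.ofReal c * min (symmetricCheeger Ω) (hyperplaneCheeger Ω) ≤ cheeger Ω := by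
  obtain ⟨c, hc, H⟩ := exists_body
  refine ⟨c / 2, by positivity, fun n Ω hn hΩ => ?_⟩
  have hΩt : volume Ω ≠ ⊤ := hΩ.bdd.measure_lt_top.ne
  have hΩ0 : volume Ω ≠ 0 := (hΩ.isOpen.measure_pos volume hΩ.nonempty).ne'
  have h2t : volume Ω / 2 ≠ ⊤ := ENNReal.div_ne_top hΩt two_ne_zero
  have h20 : volume Ω / 2 ≠ 0 := (ENNReal.half_pos hΩ0).ne'
  obtain ⟨m, hm⟩ : ∃ m, m = min (symmetricCheeger Ω) (hyperplaneCheeger Ω) := ⟨_, rfl⟩
  rw [← hm]
  obtain ⟨Cs, hCs, hs⟩ := Pool.Agent.W695.KH.sec_bound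
  have hne : Nonempty (Fin n) := ⟨⟨0, hn⟩⟩
  have hmt : m ≠ ⊤ := by
    obtain ⟨i⟩ := hne
    have h1 : ‖EuclideanSpace.single i (1 : ℝ)‖ = 1 := by simp
    have h2 := (hs (Fin n) Ω hΩ.isOpen hΩ.convex hΩ.bdd (zero_mem hΩ) hΩ.symm _ h1).1
    have h3 : EuclideanSpace.single i (1 : ℝ) ≠ 0 := by
      intro h0
      rw [h0, norm_zero] at h1
      exact zero_ne_one h1
    have h4 : m ≤ sectionArea Ω (EuclideanSpace.single i (1 : ℝ) : Euc n) / (volume Ω / 2) := by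
      rw [hm]
      exact (min_le_right _ _).trans (iInf₂_le (EuclideanSpace.single i (1 : ℝ) : Euc n) h3)
    exact ne_top_of_le_ne_top (ENNReal.div_ne_top h2 h20) h4
  by_cases hm0 : m = 0
  · rw [hm0, mul_zero]
    exact bot_le
  have hmr : 0 < m.toReal := ENNReal.toReal_pos hm0 hmt
  have hme : m = ENNReal.ofReal m.toReal := (ENNReal.ofReal_toReal hmt).symm
  have htwo : ENNReal.ofReal (m.toReal / 2) = m / 2 := by
    rw [ENNReal.ofReal_div_of_pos two_pos, ← hme]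
    simp
  refine le_iInf₂ fun E hE => ?_
  obtain ⟨h1, h2, h3, h4⟩ := hE
  have hEt : volume E ≠ ⊤ := ne_top_of_le_ne_top hΩt (measure_mono h2)
  have key := H n Ω hΩ (m.toReal / 2) (by positivity) (fun a ha => by
    have h5 : m ≤ sectionArea Ω a / (volume Ω / 2) := by
      rw [hm]
      exact (min_le_right _ _).trans (iInf₂_le a ha)
    rw [htwo]
    rw [ENNReal.le_div_iff_mul_le (Or.inl h20) (Or.inl h2t)] at h5
    refine le_trans (le_of_eq ?_) h5
    rw [ENNReal.div_eq_inv_mul, ENNReal.div_eq_inv_mul]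
    ring) (fun A hA hAΩ hAs => by
    by_cases hA0 : 0 < volume A ∧ 0 < volume (Ω \ A)
    · have h5 : m ≤ perimeter A Ω / min (volume A) (volume (Ω \ A)) := by
        rw [hm]
        exact (min_le_left _ _).trans (iInf₂_le A ⟨hA, hAΩ, hA0.1, hA0.2, hAs⟩)
      have h6 : min (volume A) (volume (Ω \ A)) ≠ 0 := (lt_min hA0.1 hA0.2).ne'
      have h7 : min (volume A) (volume (Ω \ A)) ≠ ⊤ :=
        ne_top_of_le_ne_top (ne_top_of_le_ne_top hΩt (measure_mono hAΩ)) (min_le_left _ _)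
      rw [ENNReal.le_div_iff_mul_le (Or.inl h6) (Or.inl h7)] at h5
      rw [htwo]
      exact (mul_le_mul_left ENNReal.half_le_self _).trans h5
    · have h5 : min (volume A) (volume (Ω \ A)) = 0 := by
        rw [not_and_or, not_lt, not_lt] at hA0
        rcases hA0 with h | h
        · exact le_antisymm ((min_le_left _ _).trans h) bot_le
        · exact le_antisymm ((min_le_right _ _).trans h) bot_le
      rw [h5, mul_zero]
      exact bot_le) E h1 h2
  rw [ENNReal.le_div_iff_mul_le (Or.inl (lt_min h3 h4).ne')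
    (Or.inl (ne_top_of_le_ne_top hEt (min_le_left _ _)))]
  refine le_trans (le_of_eq ?_) key
  congr 1
  conv_lhs => rw [hme]
  rw [← ENNReal.ofReal_mul (by positivity)]
  congr 1
  ring

/-- the inequality for functions -/
theorem functions {n : ℕ} {ρ : Euc n → ℝ} (hm : Measurable ρ) (h0 : ∀ x, 0 ≤ ρ x)
    (hl : ∀ x y : Euc n, ∀ t : ℝ, 0 < t → t < 1 →
      ρ x ^ (1 - t) * ρ y ^ t ≤ ρ ((1 - t) • x + t • y)) (hb : ∃ R : ℝ, ∀ x, R < ‖x‖ → ρ x = 0)
    (he : ∀ x, ρ (-x) = ρ x) {μ : Measure (Euc n)} [IsProbabilityMeasure μ]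
    (hμ : μ = volume.withDensity fun x => ENNReal.ofReal (ρ x)) {D s : ℝ} (hD : 0 < D)
    (hs : 0 < s) (hE : ∀ f : Euc n → ℝ, ContDiff ℝ 1 f → (∀ x, f (-x) = f x) → PoincareFor μ D f)
    (hc : ∀ θ : Euc n, ‖θ‖ = 1 → ∫ x, ⟪x, θ⟫_ℝ ^ 2 ∂μ ≤ s) (f : Euc n → ℝ)
    (hf : ContDiff ℝ 1 f) : PoincareFor μ (2 * (D + s)) f := by
  have hμ' : Pool.Agent.H212R2.KLS.mu ρ = μ := hμ.symm
  have h1 : Pool.Agent.H212R2.KLS.mu ρ univ = 1 := by rw [hμ']; exact measure_univ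
  have hρ : Pool.Agent.H888R2.KT.LC ρ := by
    refine ⟨h0, hm, hl, hb, ?_, ?_⟩
    · rw [h1]; exact ENNReal.one_ne_top
    · intro h2
      rw [h2] at h1
      simp at h1
  have hM : (Pool.Agent.H212R2.KLS.mu ρ).real univ = 1 := by rw [measureReal_def, h1]; rfl
  have hW : ∀ g : Euc n → ℝ, ContDiff ℝ 1 g → ∀ B : ℝ,
      PoincareFor μ B g ↔ Pool.Agent.H888R2.KT.N9x.W ρ g ≤ B * Pool.Agent.H776.EV.en ρ g := by
    intro g hg B
    have h2 := Pool.Agent.H888R2.KT.N9x.W_eq hρ hg.continuous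
    rw [hM, div_one, hμ'] at h2
    unfold PoincareFor Pool.Agent.H776.EV.en
    rw [hμ', h2]
  rw [hW f hf]
  refine Pool.Agent.H776.EV.all_poi hρ hD hs (fun g hg hge => (hW g hg D).1 (hE g hg hge)) ?_ he hf
  intro θ
  rw [hM, mul_one, hμ']
  by_cases hθ : θ = 0
  · subst hθ
    simp
  · have hn : 0 < ‖θ‖ := norm_pos_iff.2 hθ
    have h2 := hc (‖θ‖⁻¹ • θ) (by
      rw [norm_smul, norm_inv, norm_norm, inv_mul_cancel₀ hn.ne'])
    have e : ∀ x : Euc n, ⟪x, θ⟫_ℝ ^ 2 = ‖θ‖ ^ 2 * ⟪x, ‖θ‖⁻¹ • θ⟫_ℝ ^ 2 := by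
      intro x
      rw [inner_smul_right, mul_pow, inv_pow, ← mul_assoc, mul_inv_cancel₀ (by positivity), one_mul]
    simp only [e]
    rw [integral_const_mul, mul_comm s]
    exact mul_le_mul_of_nonneg_left h2 (by positivity)

/-- **For the hyperplane conjecture (Q1) one needs centrally symmetric sets only.**
(1) Unconditionally and body by body, with an absolute constant `c > 0`: for all open bounded convex
`Ω = -Ω`, up to the factor `c` the cheapest cut of `Ω` is a central hyperplane or a centrally symmetric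
set: `c min(h_s, h_0) ≤ h ≤ min(h_s, h_0)` for the Cheeger constant `h` of `Ω`, its analogue `h_s` for the
sets `A = -A`, and `h_0 = inf_a H_{n-1}(Ω ∩ a^⊥) / (|Ω| / 2)`.
(2) For all `Ω`: if `inf_a H_{n-1}(Ω ∩ a^⊥) min(|A|, |Ω \ A|) ≤ C |Ω| P(A; Ω)` for all `A = -A` then Q1
holds for `Ω` with the constant `c (C + 1)`.
(3) If Q1 holds for the symmetric sets `E = -E` (of half the volume) in the interiors of the bodies
`{x ∈ [-1, 1]ⁿ : xᵀ Q x ≤ 1}`, `Q` positive definite, with the constant `C`, then Q1 holds for all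
`Ω` and all `E` with the constant `c (C + 1)`.
(4), (5) So Q1 is equivalent to its case of symmetric sets `E = -E`, and to its case of symmetric sets
in the bodies `{x ∈ [-1, 1]ⁿ : xᵀ Q x ≤ 1}`.
(6) The inequality behind this: for every even log-concave probability density with bounded support,
if `Var f ≤ D ∫ ‖∇ f‖²` for all even `C¹` functions and the variances of all linear functionals of
norm one are at most `s`, then `Var f ≤ 2 (D + s) ∫ ‖∇ f‖²` for all `C¹` functions. -/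
theorem result :
    (∃ c : ℝ, 0 < c ∧ ∀ (n : ℕ) (Ω : Set (Euc n)), 1 ≤ n → Domain Ω →
      ENNReal.ofReal c * min (symmetricCheeger Ω) (hyperplaneCheeger Ω) ≤ cheeger Ω ∧
      cheeger Ω ≤ min (symmetricCheeger Ω) (hyperplaneCheeger Ω)) ∧
    (∃ c : ℝ, 0 < c ∧ ∀ (n : ℕ) (Ω : Set (Euc n)), 1 ≤ n → Domain Ω → ∀ C : ℝ, 0 < C →
      (∀ A : Set (Euc n), MeasurableSet A → A ⊆ Ω → Symmetric A →
        (⨅ (a : Euc n) (_ : a ≠ 0), sectionArea Ω a) * min (volume A) (volume (Ω \ A)) ≤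
          ENNReal.ofReal C * volume Ω * perimeter A Ω) →
      HyperplaneInequality (c * (C + 1)) Ω) ∧
    (∃ c : ℝ, 0 < c ∧ ∀ C : ℝ, 0 < C →
      (∀ (n : ℕ), 1 ≤ n → ∀ Q : Matrix (Fin n) (Fin n) ℝ, Q.PosDef →
        SymmetricHyperplaneInequality C (interior (EllipsoidInCube Q))) →
      ∀ (n : ℕ), 1 ≤ n → ∀ Ω : Set (Euc n), Domain Ω → HyperplaneInequality (c * (C + 1)) Ω) ∧
    ((∃ C : ℝ, 0 < C ∧ ∀ (n : ℕ), 1 ≤ n → ∀ Ω : Set (Euc n), Domain Ω →
        HyperplaneInequality C Ω) ↔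
      ∃ C : ℝ, 0 < C ∧ ∀ (n : ℕ), 1 ≤ n → ∀ Ω : Set (Euc n), Domain Ω →
        SymmetricHyperplaneInequality C Ω) ∧
    ((∃ C : ℝ, 0 < C ∧ ∀ (n : ℕ), 1 ≤ n → ∀ Ω : Set (Euc n), Domain Ω →
        HyperplaneInequality C Ω) ↔
      ∃ C : ℝ, 0 < C ∧ ∀ (n : ℕ), 1 ≤ n → ∀ Q : Matrix (Fin n) (Fin n) ℝ, Q.PosDef →
        SymmetricHyperplaneInequality C (interior (EllipsoidInCube Q))) ∧
    ∀ (n : ℕ) (ρ : Euc n → ℝ), Measurable ρ → (∀ x, 0 ≤ ρ x) →
      (∀ x y : Euc n, ∀ t : ℝ, 0 < t → t < 1 →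
        ρ x ^ (1 - t) * ρ y ^ t ≤ ρ ((1 - t) • x + t • y)) →
      (∃ R : ℝ, ∀ x, R < ‖x‖ → ρ x = 0) → (∀ x, ρ (-x) = ρ x) →
      ∀ μ : Measure (Euc n), IsProbabilityMeasure μ →
      (μ = volume.withDensity fun x => ENNReal.ofReal (ρ x)) →
      ∀ D s : ℝ, 0 < D → 0 < s →
      (∀ f : Euc n → ℝ, ContDiff ℝ 1 f → (∀ x, f (-x) = f x) → PoincareFor μ D f) →
      (∀ θ : Euc n, ‖θ‖ = 1 → ∫ x, ⟪x, θ⟫_ℝ ^ 2 ∂μ ≤ s) →
      ∀ f : Euc n → ℝ, ContDiff ℝ 1 f → PoincareFor μ (2 * (D + s)) f := by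
  obtain ⟨c, hc, H⟩ := exists_of_ellipsoids
  have hrestr : ∀ (C : ℝ) {n : ℕ} {Ω : Set (Euc n)}, HyperplaneInequality C Ω →
      SymmetricHyperplaneInequality C Ω := fun C n Ω h E hE hEΩ _ hv => h E hE hEΩ hv
  obtain ⟨c', hc', H'⟩ := exists_cheeger
  refine ⟨⟨c', hc', fun n Ω hn hΩ => ⟨H' n Ω hn hΩ, cheeger_le hΩ⟩⟩, exists_body_q1, ⟨c, hc, H⟩, ⟨?_, ?_⟩, ⟨?_, ?_⟩, ?_⟩
  · rintro ⟨C, hC, h⟩
    exact ⟨C, hC, fun n hn Ω hΩ => hrestr C (h n hn Ω hΩ)⟩
  · rintro ⟨C, hC, h⟩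
    exact ⟨c * (C + 1), by positivity, H C hC fun n hn Q hQ => h n hn _ (domain_interior hQ)⟩
  · rintro ⟨C, hC, h⟩
    exact ⟨C, hC, fun n hn Q hQ => hrestr C (h n hn _ (domain_interior hQ))⟩
  · rintro ⟨C, hC, h⟩
    exact ⟨c * (C + 1), by positivity, H C hC h⟩
  · intro n ρ hm h0 hl hb he μ hμp hμ D s hD hs hE hcov f hf
    exact functions hm h0 hl hb he hμ hD hs hE hcov f hf

end Pool.Agent.Results.MP_dc1397_gt.SymmetricSets
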